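import Pool.Agent.H84.QC.Defs
import Pool.Agent.H36.QCA.Pk

/-! # Module DA: from the Assouad spectrum to local packing bounds -/

open Metric Set Filter Topology
open scoped ENNReal

namespace QCA

variable {V : Type*} [NormedAddCommGroup V] [InnerProductSpace ℝ V] [FiniteDimensional ℝ V]

theorem lpb_of_aspec {θ : ℝ} (hθ : 0 < θ) (hθ1 : θ < 1) {E : Set V} (hE : aspec θ E < 1) :
    ∃ C s : ℝ, 0 ≤ s ∧ s < 1 ∧ LPB E 5 C s := by
  classical
  have h0 := hθ
  have h1 := hθ1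
  obtain ⟨α, hαα⟩ := iInf_lt_iff.1 hE
  obtain ⟨⟨hα0, C, hC0, hC⟩, hβ⟩ := iInf_lt_iff.1 hαα
  have hα1 : α < 1 := by
    rw [ENNReal.ofReal_lt_one] at hβ
    exact hβ
  set d0 : ℝ := (α + 1) / 2 with hd0
  have hαd : α < d0 := by rw [hd0]; linarith
  have hd1 : d0 < 1 := by rw [hd0]; linarith
  have hd00 : 0 ≤ d0 := by linarith
  -- local bound
  have hloc : ∀ (r : ℝ), 0 < r → r < 1 → ∀ x ∈ E, ∀ T : Finset V, (T : Set V) ⊆ E →
      (∀ t ∈ T, dist t x ≤ r ^ θ) → PkSep r T → (T.card : ℝ) ≤ C * r ^ (-((1 - θ) * α)) := by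
    intro r hr0 hr1 x hx T hTE hTx hTs
    obtain ⟨r', hr', hr'1, hs⟩ := hTs.exists_gt 1 hr1
    have hr'0 : 0 < r' := hr0.trans hr'
    have hR0 : 0 < r' ^ θ := by positivity
    have hR1 : r' ^ θ < 1 := Real.rpow_lt_one hr'0.le hr'1 h0
    have h2 := hC x hx (r' ^ θ) hR0 hR1
    have h3 : (r' ^ θ) ^ (1 / θ) = r' := by
      rw [← Real.rpow_mul hr'0.le, mul_one_div_cancel h0.ne', Real.rpow_one]
    rw [h3] at h2
    have h4 : (T.card : ℝ) ≤ C * (r' ^ θ) ^ ((1 - 1 / θ) * α) := by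
      refine pk_card_le_of_coverNum_le hr'0.le (by positivity) h2 hs fun t ht => ⟨?_, hTE ht⟩
      refine Metric.mem_ball.2 (lt_of_le_of_lt (hTx t ht) ?_)
      exact Real.rpow_lt_rpow hr0.le hr' h0
    refine h4.trans (mul_le_mul_of_nonneg_left ?_ hC0.le)
    rw [← Real.rpow_mul hr'0.le]
    have h5 : θ * ((1 - 1 / θ) * α) = -((1 - θ) * α) := by
      field_simp
      ring
    rw [h5]
    exact Real.rpow_le_rpow_of_nonpos hr0 hr'.le (by nlinarith)
  -- the starting scale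
  have htend : Tendsto (fun s : ℝ => C * s ^ ((1 - θ) * (d0 - α))) (𝓝[>] (0:ℝ)) (𝓝 0) := by
    have hp : 0 < (1 - θ) * (d0 - α) := mul_pos (by linarith) (by linarith)
    have h2 : Tendsto (fun s : ℝ => C * s ^ ((1 - θ) * (d0 - α))) (𝓝 (0:ℝ))
        (𝓝 (C * (0:ℝ) ^ ((1 - θ) * (d0 - α)))) :=
      ((Real.continuous_rpow_const hp.le).tendsto 0).const_mul C
    rw [Real.zero_rpow hp.ne', mul_zero] at h2
    exact h2.mono_left nhdsWithin_le_nhds
  have hev := htend.eventually (gt_mem_nhds (show (0:ℝ) < 1 by norm_num))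
  obtain ⟨r1', hr1', hsub⟩ := (mem_nhdsGT_iff_exists_Ioo_subset).1 hev
  set r1 : ℝ := min r1' 1 / 2 with hr1
  have hm0 : 0 < min r1' 1 := lt_min hr1' one_pos
  have hr10 : 0 < r1 := by positivity
  have hr11 : r1 < 1 := by
    have : min r1' 1 ≤ 1 := min_le_right _ _
    linarith
  have hsmall : ∀ s : ℝ, 0 < s → s < r1 → C * s ^ ((1 - θ) * (d0 - α)) ≤ 1 := by
    intro s hs hs1
    have : s < r1' := by
      have h3 : min r1' 1 ≤ r1' := min_le_left _ _
      have h4 : r1 < min r1' 1 := by rw [hr1]; linarith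
      linarith
    exact (hsub ⟨hs, this⟩).le
  obtain ⟨M, hM⟩ := pk_packing_bound V 5 r1 hr10
  have hbase : ∀ r : ℝ, r1 ≤ r → r ≤ 1 → ∀ (p : V) (T : Finset V),
      (∀ t ∈ T, dist t p ≤ 5) → PkSep r T → (T.card : ℝ) ≤ M * r ^ (-d0) := by
    intro r hr hrle p T hTp hTs
    have h2 := hM p T (fun t ht => (hTp t ht)) (hTs.mono hr)
    have h3 : (1:ℝ) ≤ r ^ (-d0) :=
      Real.one_le_rpow_of_pos_of_le_one_of_nonpos (by linarith) hrle (by linarith)
    calc (T.card : ℝ) ≤ M := by exact_mod_cast h2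
      _ = M * 1 := (mul_one _).symm
      _ ≤ M * r ^ (-d0) := mul_le_mul_of_nonneg_left h3 (by positivity)
  have hind : ∀ k : ℕ, ∀ r : ℝ, 0 < r → r ≤ 1 → r1 ≤ r ^ (θ ^ k) → ∀ (p : V) (T : Finset V),
      (T : Set V) ⊆ E → (∀ t ∈ T, dist t p ≤ 5) → PkSep r T →
      (T.card : ℝ) ≤ M * r ^ (-d0) := by
    intro k
    induction k with
    | zero =>
      intro r _ hr1' hr p T _ hTp hTs
      rw [pow_zero, Real.rpow_one] at hr
      exact hbase r hr hr1' p T hTp hTs
    | succ k ih =>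
      intro r hr0 hrle hr p T hTE hTp hTs
      rcases le_or_gt r1 r with hcase | hcase
      · exact hbase r hcase hrle p T hTp hTs
      have hrlt1 : r < 1 := hcase.trans hr11
      set ρ : ℝ := r ^ θ with hρ
      have hρ0 : 0 < ρ := by positivity
      have hρ1 : ρ ≤ 1 := Real.rpow_le_one hr0.le hrle h0.le
      have hρk : r1 ≤ ρ ^ (θ ^ k) := by
        rw [hρ, ← Real.rpow_mul hr0.le]
        rw [pow_succ, mul_comm] at hr
        exact hr
      obtain ⟨T', hT'T, hT's, hcov⟩ := pk_exists_net (r := ρ) hρ0.le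
        (F := (T : Set V)) (N := T.card)
        (fun S hS _ => Finset.card_le_card (Finset.coe_subset.1 hS))
      have hT'T' : T' ⊆ T := Finset.coe_subset.1 hT'T
      have h2 := ih ρ hρ0 hρ1 hρk p T' (hT'T.trans hTE) (fun t ht => hTp t (hT'T' ht)) hT's
      have hcard : T.card ≤ ∑ x ∈ T', (T.filter (fun t => dist t x ≤ ρ)).card := by
        refine le_trans (Finset.card_le_card (t := T'.biUnion
          (fun x => T.filter (fun t => dist t x ≤ ρ))) ?_) Finset.card_biUnion_le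
        intro y hy
        obtain ⟨x, hx, hyx⟩ := Set.mem_iUnion₂.1 (hcov (Finset.mem_coe.2 hy))
        exact Finset.mem_biUnion.2 ⟨x, hx, Finset.mem_filter.2 ⟨hy, Metric.mem_closedBall.1 hyx⟩⟩
      have hterm : ∀ x ∈ T', ((T.filter (fun t => dist t x ≤ ρ)).card : ℝ)
          ≤ C * r ^ (-((1 - θ) * α)) := by
        intro x hx
        exact hloc r hr0 hrlt1 x (hTE (hT'T hx)) _
          (fun y hy => hTE (Finset.mem_filter.1 (Finset.mem_coe.1 hy)).1)
          (fun t ht => (Finset.mem_filter.1 ht).2) (hTs.subset (Finset.filter_subset _ _))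
      have h3 : (T.card : ℝ) ≤ ∑ x ∈ T', ((T.filter (fun t => dist t x ≤ ρ)).card : ℝ) := by
        exact_mod_cast hcard
      have h4 := Finset.sum_le_sum hterm
      rw [Finset.sum_const, nsmul_eq_mul] at h4
      have h5 : 0 ≤ C * r ^ (-((1 - θ) * α)) := by positivity
      have h6 : ρ ^ (-d0) * (C * r ^ (-((1 - θ) * α)))
          = r ^ (-d0) * (C * r ^ ((1 - θ) * (d0 - α))) := by
        rw [hρ, ← Real.rpow_mul hr0.le]
        have e1 : r ^ (θ * -d0) * (C * r ^ (-((1 - θ) * α)))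
            = C * (r ^ (θ * -d0) * r ^ (-((1 - θ) * α))) := by ring
        have e2 : r ^ (-d0) * (C * r ^ ((1 - θ) * (d0 - α)))
            = C * (r ^ (-d0) * r ^ ((1 - θ) * (d0 - α))) := by ring
        rw [e1, e2, ← Real.rpow_add hr0, ← Real.rpow_add hr0]
        congr 2
        ring
      calc (T.card : ℝ) ≤ (T'.card : ℝ) * (C * r ^ (-((1 - θ) * α))) := h3.trans h4
        _ ≤ (M * ρ ^ (-d0)) * (C * r ^ (-((1 - θ) * α))) := mul_le_mul_of_nonneg_right h2 h5
        _ = M * (ρ ^ (-d0) * (C * r ^ (-((1 - θ) * α)))) := by ring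
        _ = M * (r ^ (-d0) * (C * r ^ ((1 - θ) * (d0 - α)))) := by rw [h6]
        _ ≤ M * (r ^ (-d0) * 1) := by
            refine mul_le_mul_of_nonneg_left (mul_le_mul_of_nonneg_left
              (hsmall r hr0 hcase) (by positivity)) (by positivity)
        _ = M * r ^ (-d0) := by rw [mul_one]
  refine ⟨M, d0, hd00, hd1, fun p r hr hr1' T hTE hTs => ?_⟩
  -- choose k
  have htk : Tendsto (fun k : ℕ => r ^ (θ ^ k)) atTop (𝓝 (r ^ (0:ℝ))) := by
    have h2 : Tendsto (fun k : ℕ => θ ^ k) atTop (𝓝 0) :=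
      tendsto_pow_atTop_nhds_zero_of_lt_one h0.le h1
    exact ((Real.continuous_const_rpow hr.ne').tendsto 0).comp h2
  rw [Real.rpow_zero] at htk
  obtain ⟨k, hk⟩ := (htk.eventually (lt_mem_nhds hr11)).exists
  exact hind k r hr hr1' hk.le p T (fun t ht => (hTE t ht).1)
    (fun t ht => by rw [dist_eq_norm]; exact (hTE t ht).2) (pkSep_iff.2 hTs)

end QCA
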