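import Pool.Agent.H84.QC.Defs
import Pool.Agent.H36.QCA.Pk

/-! # Module DB: from the upper box dimension to packing bounds -/

open Metric Set Filter Topology
open scoped ENNReal

namespace QCA

variable {V : Type*} [NormedAddCommGroup V] [InnerProductSpace ℝ V] [FiniteDimensional ℝ V]

omit [InnerProductSpace ℝ V] [FiniteDimensional ℝ V] in
theorem db_small {E : Set V} (hE : ubdim E < 1) : ∃ s r0 : ℝ, 0 ≤ s ∧ s < 1 ∧ 0 < r0 ∧ r0 ≤ 1 ∧
    ∀ r : ℝ, 0 < r → r < r0 → coverNum r E ≠ ⊤ ∧ ∀ T : Finset V, (T : Set V) ⊆ E → PkSep r T →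
      (T.card : ℝ) ≤ r ^ (-s) := by
  obtain ⟨s, h1, h2⟩ := ENNReal.lt_iff_exists_nnreal_btwn.1 hE
  have hev := eventually_lt_of_limsup_lt h1
  obtain ⟨r0, hr0, hr0'⟩ := (mem_nhdsGT_iff_exists_Ioo_subset).1 hev
  have hs1 : (s : ℝ) < 1 := by exact_mod_cast h2
  refine ⟨s, min r0 1, s.2, hs1, lt_min hr0 one_pos, min_le_right _ _, ?_⟩
  intro r hr hrr
  have h3 : r < r0 := lt_of_lt_of_le hrr (min_le_left _ _)
  have h4 : r < 1 := lt_of_lt_of_le hrr (min_le_right _ _)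
  have h5 : boxRatio r E < (s : ℝ≥0∞) := hr0' ⟨hr, h3⟩
  have hne : coverNum r E ≠ ⊤ := by
    intro htop
    unfold boxRatio at h5
    rw [if_pos htop] at h5
    exact absurd h5 (not_lt.2 le_top)
  refine ⟨hne, fun T hTE hTs => ?_⟩
  unfold boxRatio at h5
  rw [if_neg hne] at h5
  have hl : 0 < -Real.log r := by
    have := Real.log_neg hr h4
    linarith
  have h6 : Real.log ((coverNum r E).toNat : ℝ) / (-Real.log r) ≤ (s : ℝ) := by
    have h7 := (ENNReal.ofReal_le_iff_le_toReal (ENNReal.coe_ne_top)).1 h5.le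
    simpa using h7
  rw [div_le_iff₀ hl] at h6
  have h8 := pk_card_le_coverNum hr.le hTs hTE
  obtain ⟨N, hN⟩ := ENat.ne_top_iff_exists.1 hne
  rw [← hN] at h8 h6
  rw [ENat.toNat_natCast] at h6
  have h9 : T.card ≤ N := by exact_mod_cast h8
  rcases Nat.eq_zero_or_pos N with hN0 | hN0
  · subst hN0
    have : T.card = 0 := Nat.le_zero.1 h9
    rw [this, Nat.cast_zero]
    positivity
  · have h10 : (N : ℝ) ≤ r ^ (-(s:ℝ)) := by
      have h11 : Real.log (N : ℝ) ≤ Real.log (r ^ (-(s:ℝ))) := by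
        rw [Real.log_rpow hr]
        calc Real.log (N : ℝ) ≤ s * -Real.log r := h6
          _ = -(s:ℝ) * Real.log r := by ring
      exact (Real.log_le_log_iff (by exact_mod_cast hN0) (by positivity)).1 h11
    calc (T.card : ℝ) ≤ N := by exact_mod_cast h9
      _ ≤ _ := h10

theorem lpb_of_ubdim {E : Set V} (hE : ubdim E < 1) :
    ∃ C s : ℝ, 0 ≤ s ∧ s < 1 ∧ LPB E 5 C s := by
  obtain ⟨s, r1, hs0, hs1, hr10, hr11, h⟩ := db_small hE
  refine ⟨(r1 / 2) ^ (-s), s, hs0, hs1, fun p r hr hr1' T hTE hTs => ?_⟩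
  have hTE' : (T : Set V) ⊆ E := fun t ht => (hTE t ht).1
  have hTs' : PkSep r T := pkSep_iff.2 hTs
  have hr12 : (1 : ℝ) ≤ (r1 / 2) ^ (-s) :=
    Real.one_le_rpow_of_pos_of_le_one_of_nonpos (by positivity) (by linarith) (by linarith)
  have hrd : (1 : ℝ) ≤ r ^ (-s) :=
    Real.one_le_rpow_of_pos_of_le_one_of_nonpos hr hr1' (by linarith)
  rcases lt_or_ge r r1 with hc | hc
  · have := (h r hr hc).2 T hTE' hTs'
    nlinarith
  · have := (h (r1 / 2) (by positivity) (by linarith)).2 T hTE' (hTs'.mono (by linarith))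
    nlinarith

theorem bounded_of_ubdim {E : Set V} (hE : ubdim E < 1) : Bornology.IsBounded E := by
  obtain ⟨s, r1, hs0, hs1, hr10, hr11, h⟩ := db_small hE
  have hne := (h (r1 / 2) (by positivity) (by linarith)).1
  have hlt : coverNum (r1 / 2) E < ⊤ := lt_top_iff_ne_top.2 hne
  obtain ⟨S, hS⟩ := iInf_lt_iff.1 hlt
  obtain ⟨⟨hS1, hS2⟩, hS3⟩ := iInf_lt_iff.1 hS
  have hfin : S.Finite := Set.encard_lt_top_iff.1 hS3
  refine Bornology.IsBounded.subset ?_ hS2
  refine (Bornology.isBounded_sUnion hfin).2 fun t ht => ?_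
  refine Metric.isBounded_iff_ediam_ne_top.2 ?_
  exact (lt_of_le_of_lt (hS1 t ht) ENNReal.ofReal_lt_top).ne

end QCA
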