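import Pool.Agent.H84.QC.Defs
import Pool.Agent.H36.QCA.Pk

/-! # Module DC: from packing bounds to dimensions -/

open Metric Set Filter Topology
open scoped ENNReal

namespace QCA

variable {V : Type*} [NormedAddCommGroup V] [InnerProductSpace ℝ V] [FiniteDimensional ℝ V]

omit [InnerProductSpace ℝ V] [FiniteDimensional ℝ V] in
theorem dc_const_nonneg {F : Set V} {C δ : ℝ} (hF : LPB F 1 C δ) : 0 ≤ C := by
  have h := hF 0 1 one_pos le_rfl ∅ (by simp) (by simp)
  simpa using h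

omit [InnerProductSpace ℝ V] [FiniteDimensional ℝ V] in
theorem dc_half {s δ : ℝ} (hs : 0 < s) : (s / 2) ^ (-δ) = 2 ^ δ * s ^ (-δ) := by
  rw [Real.div_rpow hs.le (by norm_num), Real.rpow_neg (by norm_num : (0:ℝ) ≤ 2)]
  field_simp

theorem aspec_le {θ : ℝ} (hθ : 0 < θ) (hθ1 : θ < 1) {F : Set V} {C δ : ℝ} (hδ : 0 < δ)
    (hF : LPB F 1 C δ) : aspec θ F ≤ ENNReal.ofReal (δ / (1 - θ)) := by
  classical
  have hC := dc_const_nonneg hF
  have h1θ : 0 < 1 - θ := by linarith
  refine iInf₂_le (δ / (1 - θ)) ⟨by positivity, C * 2 ^ δ + 1, by positivity, ?_⟩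
  intro x _ R hR0 hR1
  set s : ℝ := R ^ (1 / θ) with hs
  have hs0 : 0 < s := by positivity
  have hs1 : s < 1 := Real.rpow_lt_one hR0.le hR1 (by positivity)
  have hexp : R ^ ((1 - 1 / θ) * (δ / (1 - θ))) = s ^ (-δ) := by
    rw [hs, ← Real.rpow_mul hR0.le]
    congr 1
    field_simp
    ring
  rw [hexp]
  have hpos : 0 ≤ (C * 2 ^ δ + 1) * s ^ (-δ) := by positivity
  have hb : coverNum s (Metric.ball x R ∩ F) ≤ (⌊(C * 2 ^ δ + 1) * s ^ (-δ)⌋₊ : ℕ) := by
    refine pk_coverNum_le_of_packing hs0.le fun T hTF hTs => ?_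
    rw [Nat.le_floor_iff hpos]
    have h2 := hF x (s / 2) (by positivity) (by linarith) T (fun y hy => ⟨(hTF hy).2, by
      have := Metric.mem_ball.1 (hTF hy).1
      rw [dist_eq_norm] at this
      linarith⟩) (pkSep_iff.1 hTs)
    rw [dc_half hs0] at h2
    have h4 : 0 ≤ s ^ (-δ) := by positivity
    nlinarith
  exact pk_toENNReal_le_of_nat hb (Nat.floor_le hpos)

theorem ubdim_le {F : Set V} {C δ : ℝ} (hδ : 0 < δ) (hF : LPB F 1 C δ)
    (hb : Bornology.IsBounded F) : ubdim F ≤ ENNReal.ofReal δ := by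
  classical
  have hC' := dc_const_nonneg hF
  have hprop : ProperSpace V := FiniteDimensional.proper ℝ V
  -- finitely many unit balls cover F
  obtain ⟨t, htf, hcov⟩ := Metric.totallyBounded_iff.1
    (show TotallyBounded F from
      (hb.isCompact_closure.totallyBounded).subset subset_closure) 1 one_pos
  let S : Finset V := htf.toFinset
  set B : ℝ := (S.card : ℝ) * (C * 2 ^ δ) + 1 with hB
  have hB0 : 0 < B := by positivity
  have hN : ∀ s : ℝ, 0 < s → s < 1 → coverNum s F ≤ (⌊B * s ^ (-δ)⌋₊ : ℕ) := by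
    intro s hs0 hs1
    have hpos : 0 ≤ B * s ^ (-δ) := by positivity
    refine pk_coverNum_le_of_packing hs0.le fun T hTF hTs => ?_
    rw [Nat.le_floor_iff hpos]
    have hcard : T.card ≤ ∑ x ∈ S, (T.filter (fun t => ‖t - x‖ ≤ 1)).card := by
      refine le_trans (Finset.card_le_card (t := S.biUnion
        (fun x => T.filter (fun t => ‖t - x‖ ≤ 1))) ?_) Finset.card_biUnion_le
      intro y hy
      obtain ⟨x, hx, hyx⟩ := Set.mem_iUnion₂.1 (hcov (hTF hy))
      refine Finset.mem_biUnion.2 ⟨x, by simpa [S] using hx, Finset.mem_filter.2 ⟨hy, ?_⟩⟩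
      have := Metric.mem_ball.1 hyx
      rw [dist_eq_norm] at this
      exact this.le
    have hterm : ∀ x ∈ S, ((T.filter (fun t => ‖t - x‖ ≤ 1)).card : ℝ)
        ≤ C * 2 ^ δ * s ^ (-δ) := by
      intro x _
      have h1 := hF x (s / 2) (by positivity) (by linarith) (T.filter (fun t => ‖t - x‖ ≤ 1))
        (fun y hy => ⟨hTF (Finset.mem_filter.1 hy).1, (Finset.mem_filter.1 hy).2⟩)
        (pkSep_iff.1 (hTs.subset (Finset.filter_subset _ _)))
      rw [dc_half hs0] at h1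
      calc _ ≤ _ := h1
        _ = _ := by ring
    have h3 : (T.card : ℝ) ≤ ∑ x ∈ S, ((T.filter (fun t => ‖t - x‖ ≤ 1)).card : ℝ) := by
      exact_mod_cast hcard
    have h4 := Finset.sum_le_sum hterm
    rw [Finset.sum_const, nsmul_eq_mul] at h4
    have h5 : 0 ≤ s ^ (-δ) := by positivity
    calc (T.card : ℝ) ≤ (S.card : ℝ) * (C * 2 ^ δ * s ^ (-δ)) := h3.trans h4
      _ ≤ B * s ^ (-δ) := by rw [hB]; nlinarith
  refine le_of_forall_gt_imp_ge_of_dense fun b hb => ?_
  rcases eq_or_ne b ⊤ with rfl | hbt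
  · exact le_top
  set b' : ℝ := b.toReal with hb'
  have hbb : ENNReal.ofReal b' = b := ENNReal.ofReal_toReal hbt
  have hδb : δ < b' := by
    rw [← hbb] at hb
    exact (ENNReal.ofReal_lt_ofReal_iff_of_nonneg hδ.le).1 hb
  rw [← hbb]
  refine limsup_le_of_le (by isBoundedDefault) ?_
  have htend : Tendsto (fun s : ℝ => s ^ (b' - δ)) (𝓝[>] (0:ℝ)) (𝓝 0) := by
    have h1 : Tendsto (fun s : ℝ => s ^ (b' - δ)) (𝓝 (0:ℝ)) (𝓝 ((0:ℝ) ^ (b' - δ))) :=
      (Real.continuous_rpow_const (by linarith)).tendsto 0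
    rw [Real.zero_rpow (by linarith)] at h1
    exact h1.mono_left nhdsWithin_le_nhds
  have hev := htend.eventually (gt_mem_nhds (show (0:ℝ) < 1 / B by positivity))
  filter_upwards [hev, Ioo_mem_nhdsGT (show (0:ℝ) < 1 by norm_num)] with s hs1 hs2
  have hNs := hN s hs2.1 hs2.2
  have hne : coverNum s F ≠ ⊤ := by
    intro h
    rw [h] at hNs
    exact absurd hNs (not_le.2 (ENat.natCast_lt_top _))
  unfold boxRatio
  rw [if_neg hne]
  refine ENNReal.ofReal_le_ofReal ?_
  have hl : 0 < -Real.log s := by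
    have := Real.log_neg hs2.1 hs2.2
    linarith
  rw [div_le_iff₀ hl]
  obtain ⟨N, hNN⟩ := ENat.ne_top_iff_exists.1 hne
  rw [← hNN, ENat.toNat_natCast]
  rw [← hNN] at hNs
  have h6 : (N : ℝ) ≤ B * s ^ (-δ) := by
    have h7 : N ≤ ⌊B * s ^ (-δ)⌋₊ := by exact_mod_cast hNs
    exact (Nat.le_floor_iff (by have := hs2.1; positivity)).1 h7
  have h7 : 0 < s ^ (-b') := Real.rpow_pos_of_pos hs2.1 _
  have h8 : B * s ^ (-δ) ≤ s ^ (-b') := by
    have h9 : s ^ (-δ) = s ^ (-b') * s ^ (b' - δ) := by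
      rw [← Real.rpow_add hs2.1]
      congr 1
      ring
    rw [h9]
    have h10 : B * s ^ (b' - δ) ≤ 1 := by
      rw [lt_div_iff₀ hB0] at hs1
      linarith
    calc B * (s ^ (-b') * s ^ (b' - δ)) = s ^ (-b') * (B * s ^ (b' - δ)) := by ring
      _ ≤ s ^ (-b') * 1 := mul_le_mul_of_nonneg_left h10 h7.le
      _ = s ^ (-b') := mul_one _
  rcases Nat.eq_zero_or_pos N with hN0 | hN0
  · subst hN0
    simp only [Nat.cast_zero, Real.log_zero]
    have : 0 < b' := hδ.trans hδb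
    positivity
  · calc Real.log (N : ℝ) ≤ Real.log (s ^ (-b')) :=
          Real.log_le_log (by exact_mod_cast hN0) (h6.trans h8)
      _ = b' * -Real.log s := by rw [Real.log_rpow hs2.1]; ring

end QCA
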