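import Mathlib

/-!
# Quasiconformal Assouad spectrum dimension of sets of dimension below one: definitions

`coverNum r F` : least number of sets of diameter at most `r` needed to cover `F`.
`ubdim F` : upper box-counting dimension.
`AspecLE θ α F`, `aspec θ F` : Assouad spectrum; `dimA θ F` is the convention `dimA 0 = ubdim`.
`IsQC f` : metric definition of quasiconformality of a homeomorphism.
`qcdim θ F` : global quasiconformal Assouad spectrum dimension.
-/

open Metric Set Filter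
open scoped ENNReal Topology

namespace QCA

section Dim

variable {X : Type*} [MetricSpace X]

/-- the least number of sets of diameter at most `r` needed to cover `F` -/
noncomputable def coverNum (r : ℝ) (F : Set X) : ℕ∞ :=
  ⨅ (S : Set (Set X)) (_ : (∀ s ∈ S, ediam s ≤ ENNReal.ofReal r) ∧ F ⊆ ⋃₀ S), S.encard

/-- `log N_r(F) / (- log r)`, which is `⊤` if `N_r(F)` is infinite -/
noncomputable def boxRatio (r : ℝ) (F : Set X) : ℝ≥0∞ :=
  if coverNum r F = ⊤ then ⊤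
  else ENNReal.ofReal (Real.log ((coverNum r F).toNat : ℝ) / (-Real.log r))

/-- the upper box-counting dimension -/
noncomputable def ubdim (F : Set X) : ℝ≥0∞ := limsup (fun r : ℝ => boxRatio r F) (𝓝[>] 0)

/-- the estimate defining the Assouad spectrum -/
def AspecLE (θ α : ℝ) (F : Set X) : Prop :=
  ∃ C : ℝ, 0 < C ∧ ∀ x ∈ F, ∀ R : ℝ, 0 < R → R < 1 →
    (coverNum (R ^ (1 / θ)) (ball x R ∩ F) : ℝ≥0∞) ≤ ENNReal.ofReal (C * R ^ ((1 - 1 / θ) * α))

/-- the Assouad spectrum, `0 < θ < 1` -/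
noncomputable def aspec (θ : ℝ) (F : Set X) : ℝ≥0∞ :=
  ⨅ (α : ℝ) (_ : 0 ≤ α ∧ AspecLE θ α F), ENNReal.ofReal α

/-- `dim_A^θ` for `0 ≤ θ < 1`, with the convention `dim_A^0 = ` upper box-counting dimension -/
noncomputable def dimA (θ : ℝ) (F : Set X) : ℝ≥0∞ := if θ = 0 then ubdim F else aspec θ F

/-- the outer radius `L_f(x,r) = sup {|f(y) - f(x)| : |y - x| ≤ r}` -/
noncomputable def outerR (f : X → X) (x : X) (r : ℝ) : ℝ≥0∞ :=
  ⨆ (y : X) (_ : dist y x ≤ r), edist (f y) (f x)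

/-- the inner radius `l_f(x,r) = inf {|f(y) - f(x)| : |y - x| ≥ r}` -/
noncomputable def innerR (f : X → X) (x : X) (r : ℝ) : ℝ≥0∞ :=
  ⨅ (y : X) (_ : r ≤ dist y x), edist (f y) (f x)

/-- quasiconformal homeomorphisms (metric definition): the linear dilatation
`limsup_{r → 0} L_f(x,r) / l_f(x,r)` is bounded -/
def IsQC (f : X ≃ₜ X) : Prop :=
  ∃ H : ℝ, ∀ x : X, limsup (fun r : ℝ => outerR f x r / innerR f x r) (𝓝[>] 0) ≤ ENNReal.ofReal H

/-- the global quasiconformal Assouad spectrum dimension -/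
noncomputable def qcdim (θ : ℝ) (F : Set X) : ℝ≥0∞ :=
  ⨅ (f : X ≃ₜ X) (_ : IsQC f), dimA θ (f '' F)

end Dim

section Kernel

variable {V : Type*} [NormedAddCommGroup V] [InnerProductSpace ℝ V]

/-- the weight `max (t^(-α)) 1` (only used for `t > 0`) -/
noncomputable def wt (α t : ℝ) : ℝ := max (t ^ (-α)) 1

/-- the monotone radial map `v ↦ max (|v|^(-α)) 1 * v` -/
noncomputable def hm (α : ℝ) (v : V) : V := wt α ‖v‖ • v

/-- the kernel `κ(v) = (max (|v|^(-α)) 1 - 1) * v`, which vanishes for `|v| ≥ 1` -/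
noncomputable def kap (α : ℝ) (v : V) : V := (wt α ‖v‖ - 1) • v

/-- the masses `m i` in the closed balls of radius `ρ` (for the points `y i`) are at most `c` -/
def LocMass {ι : Type*} (m : ι → ℝ) (y : ι → V) (ρ c : ℝ) : Prop :=
  ∀ (x : V) (F : Finset ι), (∀ i ∈ F, ‖y i - x‖ ≤ ρ) → ∑ i ∈ F, m i ≤ c

/-- the map `x ↦ x + ∑ m i κ(x - y i)` -/
noncomputable def fm {ι : Type*} (α : ℝ) (m : ι → ℝ) (y : ι → V) (x : V) : V :=
  x + ∑' i, m i • kap α (x - y i)

/-- the scale function of `fm` -/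
noncomputable def TT {ι : Type*} (α : ℝ) (m : ι → ℝ) (y : ι → V) (x : V) (t : ℝ) : ℝ :=
  t * (1 + ∑' i, m i * (wt α (‖x - y i‖ + t) - 1))

/-- local packing bound with exponent `s` -/
def LPB (E : Set V) (ρ C s : ℝ) : Prop :=
  ∀ (x : V) (r : ℝ), 0 < r → r ≤ 1 → ∀ F : Finset V, (∀ a ∈ F, a ∈ E ∧ ‖a - x‖ ≤ ρ) →
    (∀ a ∈ F, ∀ b ∈ F, a ≠ b → r < ‖a - b‖) → (F.card : ℝ) ≤ C * r ^ (-s)

end Kernel

end QCA
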