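import Pool.Agent.H84.QC.POT

/-! # Module FIN: equilibrium positions for finitely many masses

* `root_of_grad`: with `s = P v₀ - (v₀ - z)`, `|s| ≤ 1/4`; minimality on the ball (derivative in the
  direction `z - v₀`) gives `0 ≤ ⟪P v₀, z - v₀⟫ = -|v₀-z|² + ⟪s, z - v₀⟫`, so `|v₀ - z| ≤ 1/4`, so `v₀`
  is an interior point of the ball and the derivative vanishes.
* `fin_surj`: minimise `|x - w|²/2 + ∑_{i∈F} m i G(x - y i)` on `closedBall w (1/2)`; gradient
  `P x = x - w + ∑ m i κ(x - y i)`, and `|∑ m i κ(x - y i)| ≤ 1/8` because `κ(x - y i) = 0` for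
  `|x - y i| ≥ 1`.
* `fin_system`: minimise `Φ(y) = ∑_{i∈F} m i |y i - z i|²/2 + (1/2) ∑_{i,j∈F} m i m j G(y i - y j)` on
  the compact set `Set.pi univ (fun i => closedBall (z i) (1/2))`; for `i ∈ F` the function
  `v ↦ Φ (Function.update y i v)` has gradient `m i ((v - z i) + ∑_{j∈F, j≠i} m j κ(v - y j))`;
  apply `root_of_grad` to it divided by `m i`.
-/

open Metric Set

namespace QCA

variable {V : Type*} [NormedAddCommGroup V] [InnerProductSpace ℝ V]

theorem root_of_grad {Φ : V → ℝ} {P : V → V} {z v₀ : V}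
    (hΦ : HasFDerivAt Φ (innerSL ℝ (P v₀)) v₀) (hv : v₀ ∈ closedBall z (1 / 2))
    (hmin : ∀ v ∈ closedBall z (1 / 2), Φ v₀ ≤ Φ v) (hP : ‖P v₀ - (v₀ - z)‖ ≤ 1 / 4) :
    P v₀ = 0 := by
  have hlm : IsLocalMinOn Φ (closedBall z (1 / 2)) v₀ :=
    Filter.eventually_of_mem self_mem_nhdsWithin hmin
  have hz : z ∈ closedBall z (1 / 2) := mem_closedBall_self (by norm_num)
  have h1 : 0 ≤ (innerSL ℝ (P v₀)) (z - v₀) :=
    hlm.hasFDerivWithinAt_nonneg hΦ.hasFDerivWithinAt
      (sub_mem_posTangentConeAt_of_segment_subset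
        ((convex_closedBall z (1 / 2)).segment_subset hv hz))
  rw [innerSL_apply_apply] at h1
  set r := ‖v₀ - z‖ with hr
  have hr0 : 0 ≤ r := norm_nonneg _
  have h2 : inner ℝ (P v₀) (z - v₀) = -r ^ 2 + inner ℝ (P v₀ - (v₀ - z)) (z - v₀) := by
    rw [inner_sub_left]
    have h3 : inner ℝ (v₀ - z) (z - v₀) = -r ^ 2 := by
      rw [← neg_sub v₀ z, inner_neg_right, real_inner_self_eq_norm_sq]
    rw [h3]
    ring
  have h4 : inner ℝ (P v₀ - (v₀ - z)) (z - v₀) ≤ 1 / 4 * r := by
    refine (real_inner_le_norm _ _).trans ?_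
    rw [norm_sub_rev z v₀]
    exact mul_le_mul_of_nonneg_right hP hr0
  have h5 : r ≤ 1 / 4 := by
    by_contra hcon
    push Not at hcon
    nlinarith
  have hint : v₀ ∈ interior (closedBall z (1 / 2)) := by
    refine ball_subset_interior_closedBall ?_
    rw [mem_ball, dist_eq_norm]
    linarith
  have hlm' : IsLocalMin Φ v₀ := hlm.isLocalMin (mem_interior_iff_mem_nhds.1 hint)
  have h6 := hlm'.hasFDerivAt_eq_zero hΦ
  have h7 : (innerSL ℝ (P v₀)) (P v₀) = 0 := by rw [h6]; rfl
  rw [innerSL_apply_apply] at h7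
  exact inner_self_eq_zero.1 h7

/-- FIN: the derivative of the energy -/
theorem fin_deriv {α : ℝ} {G : V → ℝ} (hG : ∀ v, HasFDerivAt G (innerSL ℝ (kap α v)) v)
    {κ : Type*} (F : Finset κ) (m : κ → ℝ) (y : κ → V) (w v : V) :
    HasFDerivAt (fun x => 1 / 2 * ‖x - w‖ ^ 2 + ∑ i ∈ F, m i * G (x - y i))
      (innerSL ℝ ((v - w) + ∑ i ∈ F, m i • kap α (v - y i))) v := by
  have h1 : HasFDerivAt (fun x : V => 1 / 2 * ‖x - w‖ ^ 2) (innerSL ℝ (v - w)) v := by
    have h2 := (((hasFDerivAt_id (𝕜 := ℝ) v).sub_const w).norm_sq).const_mul (1 / 2)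
    refine h2.congr_fderiv ?_
    ext x
    simp
  have h3 : HasFDerivAt (fun x : V => ∑ i ∈ F, m i * G (x - y i))
      (∑ i ∈ F, m i • innerSL ℝ (kap α (v - y i))) v := by
    refine HasFDerivAt.fun_sum (fun i _ => ?_)
    have h4 : HasFDerivAt (fun x : V => G (x - y i)) (innerSL ℝ (kap α (v - y i))) v := by
      have h5 := (hG (v - y i)).comp v ((hasFDerivAt_id (𝕜 := ℝ) v).sub_const (y i))
      refine h5.congr_fderiv ?_
      ext x
      simp
    exact h4.const_mul (m i)
  refine (h1.add h3).congr_fderiv ?_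
  ext x
  simp

/-- FIN: the bound of the sum of the kernels -/
theorem fin_bound {α : ℝ} (hα : 0 < α) (hα1 : α < 1) {κ : Type*} (F : Finset κ) (m : κ → ℝ)
    (y : κ → V) (hm : ∀ i, 0 < m i) (v : V)
    (hy : ∀ F' : Finset κ, (∀ i ∈ F', ‖v - y i‖ < 1) → ∑ i ∈ F', m i ≤ 1 / 8) :
    ‖∑ i ∈ F, m i • kap α (v - y i)‖ ≤ 1 / 4 := by
  classical
  have h1 : ∑ i ∈ F, m i • kap α (v - y i) =
      ∑ i ∈ F.filter (fun i => ‖v - y i‖ < 1), m i • kap α (v - y i) := by
    rw [Finset.sum_filter]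
    refine Finset.sum_congr rfl (fun i _ => ?_)
    by_cases h : ‖v - y i‖ < 1
    · rw [if_pos h]
    · rw [if_neg h, kap_eq_zero hα (not_lt.1 h), smul_zero]
  rw [h1]
  refine (norm_sum_le _ _).trans ?_
  have h2 : ∑ i ∈ F.filter (fun i => ‖v - y i‖ < 1), ‖m i • kap α (v - y i)‖ ≤
      ∑ i ∈ F.filter (fun i => ‖v - y i‖ < 1), m i := by
    refine Finset.sum_le_sum (fun i _ => ?_)
    rw [norm_smul, Real.norm_eq_abs, abs_of_pos (hm i)]
    have := norm_kap_le hα hα1 (v - y i)
    nlinarith [hm i]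
  refine h2.trans ((hy _ (fun i hi => (Finset.mem_filter.1 hi).2)).trans (by norm_num))

variable [FiniteDimensional ℝ V]

theorem fin_surj {α : ℝ} (hα : 0 < α) (hα1 : α < 1) {ι : Type*} {m : ι → ℝ} {y : ι → V}
    (hm : ∀ i, 0 < m i) (hy : LocMass m y 3 (1 / 8)) (F : Finset ι) (w : V) :
    ∃ x, ‖x - w‖ ≤ 1 / 2 ∧ x + ∑ i ∈ F, m i • kap α (x - y i) = w := by
  obtain ⟨G, hG, _⟩ := exists_pot (V := V) hα hα1
  have : ProperSpace V := FiniteDimensional.proper_real V
  have hd := fin_deriv hG F m y w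
  have hc : Continuous (fun x => 1 / 2 * ‖x - w‖ ^ 2 + ∑ i ∈ F, m i * G (x - y i)) :=
    continuous_iff_continuousAt.2 (fun v => (hd v).continuousAt)
  obtain ⟨v₀, hv₀, hmin⟩ := (isCompact_closedBall w (1 / 2 : ℝ)).exists_isMinOn
    ⟨w, mem_closedBall_self (by norm_num)⟩ hc.continuousOn
  have h1 := root_of_grad (P := fun v => (v - w) + ∑ i ∈ F, m i • kap α (v - y i))
    (hd v₀) hv₀ (fun v hv => hmin hv) (by
      simp only [add_sub_cancel_left]
      refine fin_bound hα hα1 F m y hm v₀ (fun F' hF' => hy v₀ F' (fun i hi => ?_))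
      rw [norm_sub_rev]
      linarith [hF' i hi])
  refine ⟨v₀, ?_, ?_⟩
  · rw [mem_closedBall, dist_eq_norm] at hv₀
    exact hv₀
  · have : v₀ + ∑ i ∈ F, m i • kap α (v₀ - y i) =
        ((v₀ - w) + ∑ i ∈ F, m i • kap α (v₀ - y i)) + w := by abel
    rw [this, h1, zero_add]

omit [FiniteDimensional ℝ V] in
/-- FIN: the energy of a configuration as a function of one point -/
theorem fin_energy {κ : Type*} [Fintype κ] [DecidableEq κ] (m : κ → ℝ) (z : κ → V) (G : V → ℝ)
    (hG : ∀ v, G (-v) = G v) (y : κ → V) (i : κ) :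
    ∃ c : ℝ, ∀ v : V, (∑ a, m a * (1 / 2 * ‖Function.update y i v a - z a‖ ^ 2) +
      1 / 2 * ∑ a, ∑ b, m a * m b * G (Function.update y i v a - Function.update y i v b)) =
      m i * (1 / 2 * ‖v - z i‖ ^ 2 + ∑ b ∈ Finset.univ.erase i, m b * G (v - y b)) + c := by
  refine ⟨∑ a ∈ Finset.univ.erase i, m a * (1 / 2 * ‖y a - z a‖ ^ 2) + 1 / 2 *
    (m i * m i * G 0 + ∑ a ∈ Finset.univ.erase i, ∑ b ∈ Finset.univ.erase i,
      m a * m b * G (y a - y b)), fun v => ?_⟩
  have hne : ∀ a ∈ Finset.univ.erase i, Function.update y i v a = y a := fun a ha =>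
    Function.update_of_ne (Finset.ne_of_mem_erase ha) _ _
  have e1 : ∑ a, m a * (1 / 2 * ‖Function.update y i v a - z a‖ ^ 2) =
      m i * (1 / 2 * ‖v - z i‖ ^ 2) +
        ∑ a ∈ Finset.univ.erase i, m a * (1 / 2 * ‖y a - z a‖ ^ 2) := by
    rw [← Finset.add_sum_erase _ _ (Finset.mem_univ i), Function.update_self]
    congr 1
    exact Finset.sum_congr rfl (fun a ha => by rw [hne a ha])
  have e2 : ∀ a ∈ Finset.univ.erase i,
      ∑ b, m a * m b * G (Function.update y i v a - Function.update y i v b) =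
      m a * m i * G (v - y a) + ∑ b ∈ Finset.univ.erase i, m a * m b * G (y a - y b) := by
    intro a ha
    rw [← Finset.add_sum_erase _ _ (Finset.mem_univ i), Function.update_self, hne a ha]
    congr 1
    · rw [← hG (v - y a), neg_sub]
    · exact Finset.sum_congr rfl (fun b hb => by rw [hne b hb])
  have e3 : ∑ b, m i * m b * G (Function.update y i v i - Function.update y i v b) =
      m i * m i * G 0 + ∑ b ∈ Finset.univ.erase i, m i * m b * G (v - y b) := by
    rw [← Finset.add_sum_erase _ _ (Finset.mem_univ i), Function.update_self, sub_self]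
    congr 1
    exact Finset.sum_congr rfl (fun b hb => by rw [hne b hb])
  have e4 : ∑ a, ∑ b, m a * m b * G (Function.update y i v a - Function.update y i v b) =
      (m i * m i * G 0 + ∑ b ∈ Finset.univ.erase i, m i * m b * G (v - y b)) +
      (∑ a ∈ Finset.univ.erase i, m a * m i * G (v - y a) +
        ∑ a ∈ Finset.univ.erase i, ∑ b ∈ Finset.univ.erase i, m a * m b * G (y a - y b)) := by
    rw [← Finset.add_sum_erase _ _ (Finset.mem_univ i), e3, Finset.sum_congr rfl e2,
      Finset.sum_add_distrib]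
  rw [e1, e4]
  have e5 : ∑ a ∈ Finset.univ.erase i, m a * m i * G (v - y a) =
      m i * ∑ a ∈ Finset.univ.erase i, m a * G (v - y a) := by
    rw [Finset.mul_sum]
    exact Finset.sum_congr rfl (fun a _ => by ring)
  have e6 : ∑ a ∈ Finset.univ.erase i, m i * m a * G (v - y a) =
      m i * ∑ a ∈ Finset.univ.erase i, m a * G (v - y a) := by
    rw [Finset.mul_sum]
    exact Finset.sum_congr rfl (fun a _ => by ring)
  rw [e5, e6]
  ring

theorem fin_system {α : ℝ} (hα : 0 < α) (hα1 : α < 1) {ι : Type*} {m : ι → ℝ} {z : ι → V}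
    (hm : ∀ i, 0 < m i) (hz : LocMass m z 4 (1 / 8)) (F : Finset ι) :
    ∃ y : ι → V, (∀ i, ‖y i - z i‖ ≤ 1 / 2) ∧
      ∀ i ∈ F, y i + ∑ j ∈ F, m j • kap α (y i - y j) = z i := by
  classical
  obtain ⟨G, hG, hGs⟩ := exists_pot (V := V) hα hα1
  have : ProperSpace V := FiniteDimensional.proper_real V
  have hGc : Continuous G := continuous_iff_continuousAt.2 (fun v => (hG v).continuousAt)
  set Φ : (F → V) → ℝ := fun y => ∑ a : F, m a * (1 / 2 * ‖y a - z a‖ ^ 2) +
      1 / 2 * ∑ a : F, ∑ b : F, m a * m b * G (y a - y b) with hΦ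
  have hΦc : Continuous Φ := by
    refine Continuous.add ?_ ?_
    · refine continuous_finsetSum _ (fun a _ => ?_)
      have : Continuous (fun y : F → V => y a - z a) := (continuous_apply a).sub continuous_const
      exact continuous_const.mul (continuous_const.mul (this.norm.pow 2))
    · refine continuous_const.mul (continuous_finsetSum _ (fun a _ =>
        continuous_finsetSum _ (fun b _ => continuous_const.mul (hGc.comp ?_))))
      exact (continuous_apply a).sub (continuous_apply b)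
  set K : Set (F → V) := Set.pi Set.univ (fun i : F => closedBall (z i) (1 / 2)) with hK
  have hKc : IsCompact K := isCompact_univ_pi (fun i => isCompact_closedBall _ _)
  obtain ⟨y0, hy0, hmin⟩ := hKc.exists_isMinOn
    ⟨fun i => z i, fun i _ => mem_closedBall_self (by norm_num)⟩ hΦc.continuousOn
  have hy0' : ∀ i : F, ‖y0 i - z i‖ ≤ 1 / 2 := by
    intro i
    have := hy0 i (Set.mem_univ i)
    rwa [mem_closedBall, dist_eq_norm] at this
  -- the equation for every `i`
  have heq : ∀ i : F, (y0 i - z i) + ∑ j ∈ Finset.univ.erase i, m j • kap α (y0 i - y0 j) = 0 := by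
    intro i
    obtain ⟨c, hc⟩ := fin_energy (fun a : F => m a) (fun a : F => z a) G hGs y0 i
    have hd := fin_deriv hG (Finset.univ.erase i) (fun j : F => m j) y0 (z i) (y0 i)
    refine root_of_grad (P := fun v => (v - z i) + ∑ j ∈ Finset.univ.erase i, m j • kap α (v - y0 j))
      hd (hy0 i (Set.mem_univ i)) (fun v hv => ?_) ?_
    · have h1 : Φ (Function.update y0 i (y0 i)) ≤ Φ (Function.update y0 i v) := by
        rw [Function.update_eq_self]
        refine hmin ?_
        intro j _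
        by_cases hj : j = i
        · subst hj; rw [Function.update_self]; exact hv
        · rw [Function.update_of_ne hj]; exact hy0 j (Set.mem_univ j)
      rw [hΦ] at h1
      simp only at h1
      rw [hc, hc] at h1
      have h2 := le_of_add_le_add_right h1
      exact le_of_mul_le_mul_left h2 (hm i)
    · simp only [add_sub_cancel_left]
      refine fin_bound hα hα1 _ (fun j : F => m j) y0 (fun j => hm j) (y0 i) (fun F' hF' => ?_)
      have h3 := hz (y0 i) (F'.map (Function.Embedding.subtype _)) (fun j hj => by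
        rw [Finset.mem_map] at hj
        obtain ⟨j', hj', rfl⟩ := hj
        have h4 := hF' j' hj'
        have h5 := hy0' j'
        rw [norm_sub_rev] at h4 h5
        have h6 : z (Function.Embedding.subtype _ j') - y0 i =
            (z j' - y0 j') + (y0 j' - y0 i) := by
          simp
        rw [h6]
        refine (norm_add_le _ _).trans ?_
        linarith)
      rw [Finset.sum_map] at h3
      exact h3
  refine ⟨fun i => if h : i ∈ F then y0 ⟨i, h⟩ else z i, fun i => ?_, fun i hi => ?_⟩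
  · by_cases h : i ∈ F
    · simp only [h, dif_pos]; exact hy0' ⟨i, h⟩
    · simp only [h]; norm_num
  · simp only [hi, dif_pos]
    have h1 : ∑ j ∈ F, m j • kap α (y0 ⟨i, hi⟩ - if h : j ∈ F then y0 ⟨j, h⟩ else z j) =
        ∑ j : F, m j • kap α (y0 ⟨i, hi⟩ - y0 j) := by
      rw [← Finset.sum_coe_sort F]
      refine Finset.sum_congr rfl (fun j _ => ?_)
      rw [dif_pos j.2]
    rw [h1, ← Finset.add_sum_erase _ _ (Finset.mem_univ (⟨i, hi⟩ : F)), sub_self, kap_zero,
      smul_zero, zero_add]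
    have h2 := heq ⟨i, hi⟩
    have h3 : y0 ⟨i, hi⟩ + ∑ j ∈ Finset.univ.erase (⟨i, hi⟩ : F), m j • kap α (y0 ⟨i, hi⟩ - y0 j) =
        ((y0 ⟨i, hi⟩ - z i) + ∑ j ∈ Finset.univ.erase (⟨i, hi⟩ : F),
          m j • kap α (y0 ⟨i, hi⟩ - y0 j)) + z i := by abel
    rw [h3, h2, zero_add]

end QCA
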