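import Pool.Agent.H84.QC.SUMM

/-! # Module LOW: two-sided estimate of the increments of `fm`

Let `u ≠ 0`, `x' = x + u`, `a_i = x' - y i`, `b_i = x - y i`.  `κ(a_i) - κ(b_i) = 0` unless `i ∈ I`,
`I = {i | ‖a_i‖ < 1 or ‖b_i‖ < 1}`; on `I`, `κ(a_i) - κ(b_i) = hm a_i - hm b_i - u`.
Let `M = ∑_I m i ≤ 1/4` (two balls), `W_i = wt (max ‖a_i‖ ‖b_i‖)`.
`fm x' - fm x = (1 - M) u + ∑_I m i (hm a_i - hm b_i)`, so (`hm_mono`, `hm_upper`)
`⟪fm x' - fm x, u⟫ ≥ |u|² ((1 - M) + (1-α) ∑_I m i W_i)`, `|fm x' - fm x| ≤ |u| ((1-M) + 4 ∑_I m i W_i)`.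
`W_i = 1 + (W_i - 1)` and `max ‖a_i‖ ‖b_i‖ ≤ ‖b_i‖ + |u| ≤ 3 max ‖a_i‖ ‖b_i‖`:
lower bound: `W_i ≥ wt(‖b_i‖+|u|)` (`wt_anti`), terms outside `I` of the sum in `TT` vanish;
upper bound: `W_i ≤ 3 wt(‖b_i‖ + |u|) = 3 + 3 (wt(..) - 1)` (`wt_third`, `wt_anti`).
(If `u` is so large that `I` consists of two separate groups nothing changes.)
It is convenient to work termwise: for every `i`
`⟪κ(a_i) - κ(b_i), u⟫ ≥ |u|² ((1-α) (wt(‖b_i‖+|u|) - 1) - 1_I)` and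
`|κ(a_i) - κ(b_i)| ≤ |u| (12 (wt(‖b_i‖+|u|) - 1) + 13 · 1_I)`.
-/

open Metric Set

namespace QCA

variable {V : Type*} [NormedAddCommGroup V] [InnerProductSpace ℝ V] [CompleteSpace V]
  {ι : Type*} {m : ι → ℝ} {y : ι → V}

omit [CompleteSpace V] in
/-- LOW: the larger of the norms is positive -/
theorem low_max_pos {a b u : V} (hab : a - b = u) (hu : u ≠ 0) : 0 < max ‖a‖ ‖b‖ := by
  by_contra hcon
  push Not at hcon
  have h1 : ‖a‖ ≤ 0 := (le_max_left _ _).trans hcon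
  have h2 : ‖b‖ ≤ 0 := (le_max_right _ _).trans hcon
  rw [norm_le_zero_iff] at h1 h2
  rw [h1, h2, sub_zero] at hab
  exact hu hab.symm

omit [CompleteSpace V] in
theorem low_max_le {a b u : V} (hab : a - b = u) : max ‖a‖ ‖b‖ ≤ ‖b‖ + ‖u‖ := by
  have h1 : a = b + u := by rw [← hab]; abel
  refine max_le ?_ (by linarith [norm_nonneg u])
  rw [h1]
  exact norm_add_le _ _

omit [CompleteSpace V] in
theorem low_le_max {a b u : V} (hab : a - b = u) : (‖b‖ + ‖u‖) / 3 ≤ max ‖a‖ ‖b‖ := by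
  have h1 : ‖u‖ ≤ ‖a‖ + ‖b‖ := by rw [← hab]; exact norm_sub_le _ _
  have h2 := le_max_left ‖a‖ ‖b‖
  have h3 := le_max_right ‖a‖ ‖b‖
  linarith

omit [CompleteSpace V] in
/-- LOW: lower estimate of one term -/
theorem low_inner {α : ℝ} (hα : 0 < α) (hα1 : α < 1) {a b u : V} (hab : a - b = u) (hu : u ≠ 0) :
    ‖u‖ ^ 2 * ((1 - α) * (wt α (‖b‖ + ‖u‖) - 1) - (if ‖a‖ < 1 ∨ ‖b‖ < 1 then α else 0)) ≤
      inner ℝ (kap α a - kap α b) u := by
  by_cases hI : ‖a‖ < 1 ∨ ‖b‖ < 1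
  · rw [if_pos hI]
    have h1 : kap α a - kap α b = (hm α a - hm α b) - u := by
      rw [kap_eq, kap_eq, ← hab]; abel
    have h2 := hm_mono hα hα1 a b
    rw [hab] at h2
    have h3 : wt α (‖b‖ + ‖u‖) ≤ wt α (max ‖a‖ ‖b‖) :=
      wt_anti hα (low_max_pos hab hu) (low_max_le hab)
    rw [h1, inner_sub_left, real_inner_self_eq_norm_sq]
    have h4 : (1 - α) * wt α (‖b‖ + ‖u‖) * ‖u‖ ^ 2 ≤ (1 - α) * wt α (max ‖a‖ ‖b‖) * ‖u‖ ^ 2 := by
      have : 0 ≤ 1 - α := by linarith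
      gcongr
    nlinarith
  · rw [if_neg hI]
    push Not at hI
    rw [kap_eq_zero hα hI.1, kap_eq_zero hα hI.2, sub_self, inner_zero_left,
      wt_eq_one hα (by linarith [norm_nonneg u, hI.2])]
    norm_num

omit [CompleteSpace V] in
/-- LOW: upper estimate of one term -/
theorem low_norm {α : ℝ} (hα : 0 < α) (hα1 : α < 1) {a b u : V} (hab : a - b = u) (hu : u ≠ 0) :
    ‖kap α a - kap α b‖ ≤
      ‖u‖ * (12 * (wt α (‖b‖ + ‖u‖) - 1) + (if ‖a‖ < 1 ∨ ‖b‖ < 1 then 13 else 0)) := by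
  by_cases hI : ‖a‖ < 1 ∨ ‖b‖ < 1
  · rw [if_pos hI]
    have h1 : kap α a - kap α b = (hm α a - hm α b) - u := by
      rw [kap_eq, kap_eq, ← hab]; abel
    have h2 := hm_upper hα hα1 a b
    rw [hab] at h2
    have hu0 : 0 < ‖u‖ := norm_pos_iff.2 hu
    have hpos : 0 < ‖b‖ + ‖u‖ := by linarith [norm_nonneg b]
    have h3 : wt α (max ‖a‖ ‖b‖) ≤ 3 * wt α (‖b‖ + ‖u‖) :=
      (wt_anti hα (by positivity) (low_le_max hab)).trans (wt_third hα hα1 hpos)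
    rw [h1]
    refine (norm_sub_le _ _).trans ?_
    have h4 : 4 * wt α (max ‖a‖ ‖b‖) * ‖u‖ ≤ 4 * (3 * wt α (‖b‖ + ‖u‖)) * ‖u‖ := by gcongr
    linarith
  · rw [if_neg hI]
    push Not at hI
    rw [kap_eq_zero hα hI.1, kap_eq_zero hα hI.2, sub_self, norm_zero,
      wt_eq_one hα (by linarith [norm_nonneg u, hI.2])]
    norm_num

omit [CompleteSpace V] in
/-- LOW: the mass near one of the two points -/
theorem low_mass (hm : ∀ i, 0 < m i) (hy : LocMass m y 3 (1 / 8)) (x u : V) :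
    Summable (fun i => if ‖x + u - y i‖ < 1 ∨ ‖x - y i‖ < 1 then m i else 0) ∧
      ∑' i, (if ‖x + u - y i‖ < 1 ∨ ‖x - y i‖ < 1 then m i else 0) ≤ 1 / 4 := by
  obtain ⟨s1, t1⟩ := summable_mass hm hy x
  obtain ⟨s2, t2⟩ := summable_mass hm hy (x + u)
  have hle : ∀ i, (if ‖x + u - y i‖ < 1 ∨ ‖x - y i‖ < 1 then m i else 0) ≤
      (if ‖y i - x‖ ≤ 3 then m i else 0) + (if ‖y i - (x + u)‖ ≤ 3 then m i else 0) := by
    intro i
    have h0 := (hm i).le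
    by_cases h1 : ‖x + u - y i‖ < 1
    · have h2 : ‖y i - (x + u)‖ ≤ 3 := by rw [norm_sub_rev]; linarith
      rw [if_pos (Or.inl h1), if_pos h2]
      split_ifs <;> linarith
    · by_cases h3 : ‖x - y i‖ < 1
      · have h2 : ‖y i - x‖ ≤ 3 := by rw [norm_sub_rev]; linarith
        rw [if_pos (Or.inr h3), if_pos h2]
        split_ifs <;> linarith
      · rw [if_neg (by tauto)]
        split_ifs <;> linarith
  have hnn : ∀ i, 0 ≤ (if ‖x + u - y i‖ < 1 ∨ ‖x - y i‖ < 1 then m i else 0) := by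
    intro i
    split_ifs
    · exact (hm i).le
    · exact le_rfl
  have hs : Summable (fun i => if ‖x + u - y i‖ < 1 ∨ ‖x - y i‖ < 1 then m i else 0) :=
    Summable.of_nonneg_of_le hnn hle (s1.add s2)
  refine ⟨hs, ?_⟩
  calc ∑' i, (if ‖x + u - y i‖ < 1 ∨ ‖x - y i‖ < 1 then m i else 0)
      ≤ ∑' i, ((if ‖y i - x‖ ≤ 3 then m i else 0) + (if ‖y i - (x + u)‖ ≤ 3 then m i else 0)) :=
        hs.tsum_le_tsum hle (s1.add s2)
    _ = _ := s1.tsum_add s2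
    _ ≤ 1 / 4 := by linarith

/-- LOW: the increment of `fm` -/
theorem low_fm {α : ℝ} (hα : 0 < α) (hα1 : α < 1) (hm : ∀ i, 0 < m i)
    (hy : LocMass m y 3 (1 / 8)) (x u : V) :
    Summable (fun i => m i • (kap α (x + u - y i) - kap α (x - y i))) ∧
    fm α m y (x + u) - fm α m y x =
      u + ∑' i, m i • (kap α (x + u - y i) - kap α (x - y i)) := by
  have s1 := summable_kap hα hα1 hm hy (x + u)
  have s2 := summable_kap hα hα1 hm hy x
  have e1 : (fun i => m i • (kap α (x + u - y i) - kap α (x - y i))) =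
      fun i => m i • kap α (x + u - y i) - m i • kap α (x - y i) := by
    funext i
    rw [smul_sub]
  refine ⟨by rw [e1]; exact s1.sub s2, ?_⟩
  rw [e1, s1.tsum_sub s2]
  unfold fm
  abel

theorem fm_inner {α : ℝ} (hα : 0 < α) (hα1 : α < 1) (hm : ∀ i, 0 < m i)
    (hy : LocMass m y 3 (1 / 8)) (x u : V) (hu : u ≠ 0) :
    (1 - α) / 2 * ‖u‖ * TT α m y x ‖u‖ ≤ inner ℝ (fm α m y (x + u) - fm α m y x) u := by
  have hu0 : 0 < ‖u‖ := norm_pos_iff.2 hu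
  obtain ⟨hsD, hfm⟩ := low_fm hα hα1 hm hy x u
  have hsS := summable_TT hα hm hy x hu0
  obtain ⟨hsJ, hJ⟩ := low_mass hm hy x u
  rw [hfm, inner_add_left, real_inner_self_eq_norm_sq, real_inner_comm]
  have h1 : inner ℝ u (∑' i, m i • (kap α (x + u - y i) - kap α (x - y i))) =
      ∑' i, inner ℝ u (m i • (kap α (x + u - y i) - kap α (x - y i))) := by
    have := (innerSL ℝ u).map_tsum hsD
    simpa only [innerSL_apply_apply] using this
  have hs1 : Summable (fun i => inner ℝ u (m i • (kap α (x + u - y i) - kap α (x - y i)))) := by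
    have := (innerSL ℝ u).summable hsD
    simpa only [innerSL_apply_apply] using this
  rw [h1]
  have hs2 : Summable (fun i => ‖u‖ ^ 2 * ((1 - α) * (m i * (wt α (‖x - y i‖ + ‖u‖) - 1)) -
      α * (if ‖x + u - y i‖ < 1 ∨ ‖x - y i‖ < 1 then m i else 0))) :=
    ((hsS.mul_left (1 - α)).sub (hsJ.mul_left α)).mul_left _
  have hterm : ∀ i, ‖u‖ ^ 2 * ((1 - α) * (m i * (wt α (‖x - y i‖ + ‖u‖) - 1)) -
      α * (if ‖x + u - y i‖ < 1 ∨ ‖x - y i‖ < 1 then m i else 0)) ≤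
      inner ℝ u (m i • (kap α (x + u - y i) - kap α (x - y i))) := by
    intro i
    have h2 := low_inner hα hα1 (a := x + u - y i) (b := x - y i) (u := u) (by abel) hu
    rw [inner_smul_right, real_inner_comm]
    have h3 := mul_le_mul_of_nonneg_left h2 (hm i).le
    refine le_trans (le_of_eq ?_) h3
    by_cases hI : ‖x + u - y i‖ < 1 ∨ ‖x - y i‖ < 1
    · rw [if_pos hI, if_pos hI]; ring
    · rw [if_neg hI, if_neg hI]; ring
  have h4 := hs2.tsum_le_tsum hterm hs1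
  rw [tsum_mul_left, (hsS.mul_left (1 - α)).tsum_sub (hsJ.mul_left α), tsum_mul_left,
    tsum_mul_left] at h4
  unfold TT
  set S := ∑' i, m i * (wt α (‖x - y i‖ + ‖u‖) - 1) with hS
  set J := ∑' i, (if ‖x + u - y i‖ < 1 ∨ ‖x - y i‖ < 1 then m i else 0) with hJdef
  have hS0 : 0 ≤ S := tsum_nonneg (fun i => mul_nonneg (hm i).le (by linarith [one_le_wt α (‖x - y i‖ + ‖u‖)]))
  have hJ0 : 0 ≤ J := tsum_nonneg (fun i => by
    split_ifs
    · exact (hm i).le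
    · exact le_rfl)
  have h5 : (1 - α) / 2 * ‖u‖ * (‖u‖ * (1 + S)) ≤
      ‖u‖ ^ 2 + ‖u‖ ^ 2 * ((1 - α) * S - α * J) := by
    have h6 : (1 - α) / 2 * (1 + S) ≤ 1 + ((1 - α) * S - α * J) := by
      have h7 : α * J ≤ 1 / 4 := by nlinarith
      have h8 : 0 ≤ (1 - α) * S := mul_nonneg (by linarith) hS0
      nlinarith
    have h9 : 0 ≤ ‖u‖ ^ 2 := by positivity
    calc (1 - α) / 2 * ‖u‖ * (‖u‖ * (1 + S)) = ‖u‖ ^ 2 * ((1 - α) / 2 * (1 + S)) := by ring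
      _ ≤ ‖u‖ ^ 2 * (1 + ((1 - α) * S - α * J)) := mul_le_mul_of_nonneg_left h6 h9
      _ = ‖u‖ ^ 2 + ‖u‖ ^ 2 * ((1 - α) * S - α * J) := by ring
  linarith

theorem fm_lower {α : ℝ} (hα : 0 < α) (hα1 : α < 1) (hm : ∀ i, 0 < m i)
    (hy : LocMass m y 3 (1 / 8)) (x u : V) (hu : u ≠ 0) :
    (1 - α) / 2 * TT α m y x ‖u‖ ≤ ‖fm α m y (x + u) - fm α m y x‖ := by
  have hu0 : 0 < ‖u‖ := norm_pos_iff.2 hu
  have h1 := (fm_inner hα hα1 hm hy x u hu).trans (real_inner_le_norm _ _)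
  have h2 : ((1 - α) / 2 * TT α m y x ‖u‖) * ‖u‖ ≤ ‖fm α m y (x + u) - fm α m y x‖ * ‖u‖ := by
    linarith
  exact le_of_mul_le_mul_right h2 hu0

theorem fm_upper {α : ℝ} (hα : 0 < α) (hα1 : α < 1) (hm : ∀ i, 0 < m i)
    (hy : LocMass m y 3 (1 / 8)) (x u : V) (hu : u ≠ 0) :
    ‖fm α m y (x + u) - fm α m y x‖ ≤ 20 * TT α m y x ‖u‖ := by
  have hu0 : 0 < ‖u‖ := norm_pos_iff.2 hu
  obtain ⟨hsD, hfm⟩ := low_fm hα hα1 hm hy x u
  have hsS := summable_TT hα hm hy x hu0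
  obtain ⟨hsJ, hJ⟩ := low_mass hm hy x u
  rw [hfm]
  refine (norm_add_le _ _).trans ?_
  have hs2 : Summable (fun i => ‖u‖ * (12 * (m i * (wt α (‖x - y i‖ + ‖u‖) - 1)) +
      13 * (if ‖x + u - y i‖ < 1 ∨ ‖x - y i‖ < 1 then m i else 0))) :=
    ((hsS.mul_left 12).add (hsJ.mul_left 13)).mul_left _
  have hterm : ∀ i, ‖m i • (kap α (x + u - y i) - kap α (x - y i))‖ ≤
      ‖u‖ * (12 * (m i * (wt α (‖x - y i‖ + ‖u‖) - 1)) +
      13 * (if ‖x + u - y i‖ < 1 ∨ ‖x - y i‖ < 1 then m i else 0)) := by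
    intro i
    have h2 := low_norm hα hα1 (a := x + u - y i) (b := x - y i) (u := u) (by abel) hu
    rw [norm_smul, Real.norm_eq_abs, abs_of_pos (hm i)]
    refine (mul_le_mul_of_nonneg_left h2 (hm i).le).trans (le_of_eq ?_)
    by_cases hI : ‖x + u - y i‖ < 1 ∨ ‖x - y i‖ < 1
    · rw [if_pos hI, if_pos hI]; ring
    · rw [if_neg hI, if_neg hI]; ring
  have h4 : ‖∑' i, m i • (kap α (x + u - y i) - kap α (x - y i))‖ ≤
      ∑' i, ‖u‖ * (12 * (m i * (wt α (‖x - y i‖ + ‖u‖) - 1)) +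
      13 * (if ‖x + u - y i‖ < 1 ∨ ‖x - y i‖ < 1 then m i else 0)) :=
    tsum_of_norm_bounded hs2.hasSum hterm
  rw [tsum_mul_left, (hsS.mul_left 12).tsum_add (hsJ.mul_left 13), tsum_mul_left,
    tsum_mul_left] at h4
  unfold TT
  set S := ∑' i, m i * (wt α (‖x - y i‖ + ‖u‖) - 1) with hS
  set J := ∑' i, (if ‖x + u - y i‖ < 1 ∨ ‖x - y i‖ < 1 then m i else 0) with hJdef
  have hS0 : 0 ≤ S := tsum_nonneg (fun i => mul_nonneg (hm i).le (by linarith [one_le_wt α (‖x - y i‖ + ‖u‖)]))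
  have h5 : ‖u‖ * (12 * S + 13 * J) ≤ ‖u‖ * (12 * S + 13 * (1 / 4)) := by gcongr
  have h6 : 0 ≤ ‖u‖ * S := mul_nonneg hu0.le hS0
  nlinarith

/-- `TT α m y (y i) t ≥ t * m i * (wt t - 1)` and `TT ≥ t`, so `TT ≥ m i * t^(1-α)` (`m i ≤ 1/8`) -/
theorem fm_center {α : ℝ} (hα : 0 < α) (hα1 : α < 1) (hm : ∀ i, 0 < m i)
    (hy : LocMass m y 3 (1 / 8)) (i : ι) (x : V) (hx : ‖x - y i‖ ≤ 1) :
    (1 - α) / 2 * (m i * ‖x - y i‖ ^ (1 - α)) ≤ ‖fm α m y x - fm α m y (y i)‖ := by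
  by_cases hxy : x = y i
  · rw [hxy, sub_self, norm_zero, Real.zero_rpow (by linarith), mul_zero, mul_zero]
    exact norm_nonneg _
  have hu : x - y i ≠ 0 := sub_ne_zero.2 hxy
  have hu0 : 0 < ‖x - y i‖ := norm_pos_iff.2 hu
  have h1 := fm_lower hα hα1 hm hy (y i) (x - y i) hu
  rw [add_sub_cancel] at h1
  refine le_trans ?_ h1
  refine mul_le_mul_of_nonneg_left ?_ (by linarith)
  have hmi : m i ≤ 1 / 8 := by
    have := hy (y i) {i} (by simp)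
    simpa using this
  have hsS := summable_TT hα hm hy (y i) hu0
  have h2 : m i * (wt α (‖y i - y i‖ + ‖x - y i‖) - 1) ≤
      ∑' j, m j * (wt α (‖y i - y j‖ + ‖x - y i‖) - 1) :=
    hsS.le_tsum i (fun j _ => mul_nonneg (hm j).le
      (by linarith [one_le_wt α (‖y i - y j‖ + ‖x - y i‖)]))
  rw [sub_self, norm_zero, zero_add, wt_le_rpow hα hu0 hx] at h2
  unfold TT
  set t := ‖x - y i‖ with ht
  have h3 : t ^ (1 - α) = t * t ^ (-α) := by
    rw [sub_eq_add_neg, Real.rpow_add hu0, Real.rpow_one]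
  rw [h3]
  have h4 : t * (1 + m i * (t ^ (-α) - 1)) ≤
      t * (1 + ∑' j, m j * (wt α (‖y i - y j‖ + t) - 1)) := by
    gcongr
  refine le_trans ?_ h4
  nlinarith

end QCA
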