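import Pool.Agent.H84.QC.SUMM

/-! # Module TSC: the scale function `TT`

* `TT_scale`: for every `i` with `‖x - y i‖ < 1`: with `p = ‖x - y i‖`,
  `l wz(p + l t) - l^(1-α) wz(p + t) ≥ l (l^(-α) wt(p+t) - 1) - l^(1-α) (wt(p+t) - 1) = -(l - l^(1-α))`
  (`wz = wt - 1`; `p + l t ≤ l (p + t)`, `wt_anti`, `wt_scale`); the other terms are `0`.  Sum:
  `≥ -(l - l^(1-α)) / 8`.
* `TT_mono` follows (`l = t'/t`).
* `TT_small`: `wt(p + t) - 1 ≤ wt t ≤ t^(-α)` for `t ≤ 1`, so `TT ≤ t (1 + t^(-α)/8) ≤ 2 t^(1-α)`.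
-/

open Metric Set

namespace QCA

variable {V : Type*} [NormedAddCommGroup V] [InnerProductSpace ℝ V]
  {ι : Type*} {m : ι → ℝ} {y : ι → V}

theorem tsc_near (hm : ∀ i, 0 < m i) (hy : LocMass m y 3 (1 / 8)) (x : V) :
    Summable (fun i => if ‖y i - x‖ ≤ 3 then m i else 0) ∧
      ∑' i, (if ‖y i - x‖ ≤ 3 then m i else 0) ≤ 1 / 8 := summable_mass hm hy x

theorem TT_scale {α : ℝ} (hα : 0 < α) (hα1 : α < 1) (hm : ∀ i, 0 < m i)
    (hy : LocMass m y 3 (1 / 8)) (x : V) {t l : ℝ} (ht : 0 < t) (hl : 1 ≤ l) :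
    l ^ (1 - α) * TT α m y x t ≤ TT α m y x (l * t) := by
  have hl0 : 0 < l := by linarith
  have hlt : 0 < l * t := mul_pos hl0 ht
  have hl1 : l ^ (1 - α) ≤ l := by
    calc l ^ (1 - α) ≤ l ^ (1 : ℝ) := Real.rpow_le_rpow_of_exponent_le hl (by linarith)
      _ = l := Real.rpow_one l
  have hll : l ^ (1 - α) = l * l ^ (-α) := by
    rw [sub_eq_add_neg, Real.rpow_add hl0, Real.rpow_one]
  have hlp : 0 < l ^ (1 - α) := Real.rpow_pos_of_pos hl0 _
  obtain ⟨hs, hs1⟩ := tsc_near hm hy x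
  have h1 := summable_TT hα hm hy x ht
  have h2 := summable_TT hα hm hy x hlt
  -- termwise inequality
  have hterm : ∀ i, l ^ (1 - α) * (m i * (wt α (‖x - y i‖ + t) - 1)) -
      (l - l ^ (1 - α)) * (if ‖y i - x‖ ≤ 3 then m i else 0) ≤
      l * (m i * (wt α (‖x - y i‖ + l * t) - 1)) := by
    intro i
    have hp := norm_nonneg (x - y i)
    have hpt : 0 < ‖x - y i‖ + t := by linarith
    by_cases hi : ‖x - y i‖ < 1
    · rw [if_pos (by rw [norm_sub_rev]; linarith)]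
      have h3 : wt α (l * (‖x - y i‖ + t)) ≤ wt α (‖x - y i‖ + l * t) :=
        wt_anti hα (by positivity) (by nlinarith)
      have h4 := (wt_scale hα hpt hl).trans h3
      have h5 : l ^ (1 - α) * wt α (‖x - y i‖ + t) ≤ l * wt α (‖x - y i‖ + l * t) := by
        rw [hll, mul_assoc]
        exact mul_le_mul_of_nonneg_left h4 hl0.le
      have h6 : m i * (l ^ (1 - α) * wt α (‖x - y i‖ + t)) ≤
          m i * (l * wt α (‖x - y i‖ + l * t)) := mul_le_mul_of_nonneg_left h5 (hm i).le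
      nlinarith
    · have hi' := not_lt.mp hi
      rw [wt_eq_one hα (by linarith), wt_eq_one hα (by linarith)]
      have h7 : 0 ≤ (if ‖y i - x‖ ≤ 3 then m i else 0) := summ_nonneg hm x i
      simp only [sub_self, mul_zero, zero_sub]
      nlinarith [mul_nonneg (by linarith : 0 ≤ l - l ^ (1 - α)) h7]
  have hsum := Summable.tsum_le_tsum hterm
    ((h1.mul_left (l ^ (1 - α))).sub (hs.mul_left (l - l ^ (1 - α)))) (h2.mul_left l)
  rw [(h1.mul_left (l ^ (1 - α))).tsum_sub (hs.mul_left (l - l ^ (1 - α))), tsum_mul_left,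
    tsum_mul_left, tsum_mul_left] at hsum
  unfold TT
  have h8 : (l - l ^ (1 - α)) * ∑' i, (if ‖y i - x‖ ≤ 3 then m i else 0) ≤ l - l ^ (1 - α) := by
    have : 0 ≤ l - l ^ (1 - α) := by linarith
    nlinarith
  have h9 : l ^ (1 - α) * (1 + ∑' i, m i * (wt α (‖x - y i‖ + t) - 1)) ≤
      l * (1 + ∑' i, m i * (wt α (‖x - y i‖ + l * t) - 1)) := by linarith
  calc l ^ (1 - α) * (t * (1 + ∑' i, m i * (wt α (‖x - y i‖ + t) - 1))) =
        t * (l ^ (1 - α) * (1 + ∑' i, m i * (wt α (‖x - y i‖ + t) - 1))) := by ring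
    _ ≤ t * (l * (1 + ∑' i, m i * (wt α (‖x - y i‖ + l * t) - 1))) :=
        mul_le_mul_of_nonneg_left h9 ht.le
    _ = _ := by ring

theorem tsc_nonneg {α : ℝ} (hm : ∀ i, 0 < m i) (x : V) (t : ℝ) :
    0 ≤ ∑' i, m i * (wt α (‖x - y i‖ + t) - 1) :=
  tsum_nonneg fun i => mul_nonneg (hm i).le (by linarith [one_le_wt α (‖x - y i‖ + t)])

theorem le_TT {α : ℝ} (hα : 0 < α) (hα1 : α < 1) (hm : ∀ i, 0 < m i)
    (hy : LocMass m y 3 (1 / 8)) (x : V) {t : ℝ} (ht : 0 < t) : t ≤ TT α m y x t := by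
  unfold TT
  nlinarith [tsc_nonneg (α := α) (y := y) hm x t]

theorem TT_mono {α : ℝ} (hα : 0 < α) (hα1 : α < 1) (hm : ∀ i, 0 < m i)
    (hy : LocMass m y 3 (1 / 8)) (x : V) {t t' : ℝ} (ht : 0 < t) (htt : t ≤ t') :
    TT α m y x t ≤ TT α m y x t' := by
  have hl : 1 ≤ t' / t := by rw [le_div_iff₀ ht]; linarith
  have h1 := TT_scale hα hα1 hm hy x ht hl
  rw [div_mul_cancel₀ _ ht.ne'] at h1
  have h2 : 1 ≤ (t' / t) ^ (1 - α) := Real.one_le_rpow hl (by linarith)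
  have h3 := le_TT hα hα1 hm hy x ht
  nlinarith

theorem TT_small {α : ℝ} (hα : 0 < α) (hα1 : α < 1) (hm : ∀ i, 0 < m i)
    (hy : LocMass m y 3 (1 / 8)) (x : V) {t : ℝ} (ht : 0 < t) (ht1 : t ≤ 1) :
    TT α m y x t ≤ 2 * t ^ (1 - α) := by
  obtain ⟨hs, hs1⟩ := tsc_near hm hy x
  have h1 := summable_TT hα hm hy x ht
  have hterm : ∀ i, m i * (wt α (‖x - y i‖ + t) - 1) ≤
      t ^ (-α) * (if ‖y i - x‖ ≤ 3 then m i else 0) := by
    intro i
    have hp := norm_nonneg (x - y i)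
    by_cases hi : ‖x - y i‖ < 1
    · rw [if_pos (by rw [norm_sub_rev]; linarith)]
      have h3 : wt α (‖x - y i‖ + t) ≤ wt α t := wt_anti hα ht (by linarith)
      rw [wt_le_rpow hα ht ht1] at h3
      have := hm i
      nlinarith
    · have hi' := not_lt.mp hi
      rw [wt_eq_one hα (by linarith), sub_self, mul_zero]
      exact mul_nonneg (Real.rpow_nonneg ht.le _) (summ_nonneg hm x i)
  have hsum := Summable.tsum_le_tsum hterm h1 (hs.mul_left (t ^ (-α)))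
  rw [tsum_mul_left] at hsum
  have hta : 0 < t ^ (-α) := Real.rpow_pos_of_pos ht _
  have hta1 : 1 ≤ t ^ (-α) := Real.one_le_rpow_of_pos_of_le_one_of_nonpos ht ht1 (by linarith)
  have h4 : t ^ (1 - α) = t * t ^ (-α) := by
    rw [sub_eq_add_neg, Real.rpow_add ht, Real.rpow_one]
  unfold TT
  rw [h4]
  have h5 : ∑' i, m i * (wt α (‖x - y i‖ + t) - 1) ≤ t ^ (-α) := by nlinarith
  calc t * (1 + ∑' i, m i * (wt α (‖x - y i‖ + t) - 1)) ≤ t * (2 * t ^ (-α)) :=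
        mul_le_mul_of_nonneg_left (by linarith) ht.le
    _ = _ := by ring

end QCA
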