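import Pool.Agent.H84.QC.INF
import Pool.Agent.H84.QC.TSC
import Pool.Agent.H84.QC.LOW

/-! # Module HOM: `fm` is a homeomorphism

Injective: `fm_lower` and `le_TT` give `‖fm (x+u) - fm x‖ ≥ (1-α)/2 ‖u‖`; so the inverse is Lipschitz.
Continuous: `fm_upper` and `TT_small`.  Surjective: for `w` and every finite `F` take `x_F` from
`fin_surj`; a limit point `x` in the compact ball along an ultrafilter `≤ atTop` satisfies
`fm x = w`, as `‖∑' i, m i κ(x_F - y i) - ∑_{i∈F} ...‖ ≤ ∑_{i∉F} (if ‖y i - w‖ ≤ 3 then m i else 0) → 0`.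
-/

open Metric Set Filter Topology

namespace QCA

variable {V : Type*} [NormedAddCommGroup V] [InnerProductSpace ℝ V] [FiniteDimensional ℝ V]
  {ι : Type*} {m : ι → ℝ} {y : ι → V}

theorem hom_expand {α : ℝ} (hα : 0 < α) (hα1 : α < 1) (hm : ∀ i, 0 < m i)
    (hy : LocMass m y 3 (1 / 8)) (x x' : V) :
    (1 - α) / 2 * dist x' x ≤ dist (fm α m y x') (fm α m y x) := by
  by_cases h : x' = x
  · rw [h, dist_self, dist_self, mul_zero]
  · have hu : x' - x ≠ 0 := sub_ne_zero.mpr h
    have ht : 0 < ‖x' - x‖ := norm_pos_iff.mpr hu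
    have h1 := fm_lower hα hα1 hm hy x (x' - x) hu
    rw [add_sub_cancel] at h1
    rw [dist_eq_norm, dist_eq_norm]
    refine le_trans ?_ h1
    exact mul_le_mul_of_nonneg_left (le_TT hα hα1 hm hy x ht) (by linarith)

theorem hom_cont {α : ℝ} (hα : 0 < α) (hα1 : α < 1) (hm : ∀ i, 0 < m i)
    (hy : LocMass m y 3 (1 / 8)) : Continuous (fm α m y) := by
  rw [continuous_iff_continuousAt]
  intro x
  unfold ContinuousAt
  rw [tendsto_iff_norm_sub_tendsto_zero]
  have h1 : Tendsto (fun x' : V => 40 * ‖x' - x‖ ^ (1 - α)) (𝓝 x) (𝓝 0) := by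
    have h2 : Tendsto (fun x' : V => ‖x' - x‖) (𝓝 x) (𝓝 0) := by
      have : Continuous (fun x' : V => ‖x' - x‖) := by fun_prop
      have h3 := this.tendsto x
      simpa using h3
    have h3 : Tendsto (fun x' : V => ‖x' - x‖ ^ (1 - α)) (𝓝 x) (𝓝 (0 ^ (1 - α))) :=
      h2.rpow_const (Or.inr (by linarith))
    rw [Real.zero_rpow (by linarith)] at h3
    simpa using h3.const_mul 40
  refine squeeze_zero' (Eventually.of_forall fun _ => norm_nonneg _) ?_ h1
  have h2 : ∀ᶠ x' in 𝓝 x, ‖x' - x‖ < 1 := by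
    have := ball_mem_nhds x one_pos
    filter_upwards [this] with x' hx'
    rwa [mem_ball, dist_eq_norm] at hx'
  filter_upwards [h2] with x' hx'
  by_cases h : x' = x
  · subst h
    rw [sub_self, sub_self, norm_zero, Real.zero_rpow (by linarith), mul_zero]
  · have hu : x' - x ≠ 0 := sub_ne_zero.mpr h
    have ht : 0 < ‖x' - x‖ := norm_pos_iff.mpr hu
    have h3 := fm_upper hα hα1 hm hy x (x' - x) hu
    rw [add_sub_cancel] at h3
    have h4 := TT_small hα hα1 hm hy x ht hx'.le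
    linarith

theorem hom_surj {α : ℝ} (hα : 0 < α) (hα1 : α < 1) (hm : ∀ i, 0 < m i)
    (hy : LocMass m y 3 (1 / 8)) (w : V) : ∃ x, fm α m y x = w := by
  classical
  choose p hp1 hp2 using fun F : Finset ι => fin_surj hα hα1 hm hy F w
  let 𝒰 : Ultrafilter (Finset ι) := Ultrafilter.of atTop
  have h𝒰 : (𝒰 : Filter (Finset ι)) ≤ atTop := Ultrafilter.of_le atTop
  have hmem : ∀ F, p F ∈ closedBall w (1 / 2) := fun F => by
    rw [mem_closedBall, dist_eq_norm]
    exact hp1 F
  obtain ⟨x, hx, hle⟩ := (isCompact_closedBall w (1 / 2)).ultrafilter_le_nhds (𝒰.map p) (by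
    rw [le_principal_iff]
    exact Filter.mem_map.mpr (Filter.univ_mem' hmem))
  have hx2 : Tendsto p 𝒰 (𝓝 x) := hle
  refine ⟨x, ?_⟩
  have hu := (summable_mass hm hy w).1
  have hbd : ∀ F j, ‖m j • kap α (p F - y j)‖ ≤ (if ‖y j - w‖ ≤ 3 then m j else 0) := by
    intro F j
    split_ifs with h
    · rw [norm_smul, Real.norm_of_nonneg (hm j).le]
      calc m j * ‖kap α (p F - y j)‖ ≤ m j * 1 :=
            mul_le_mul_of_nonneg_left (norm_kap_le hα hα1 _) (hm j).le
        _ = m j := mul_one _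
    · rw [kap_eq_zero hα, smul_zero, norm_zero]
      have h1 := hp1 F
      have h3 : ‖y j - w‖ ≤ ‖y j - p F‖ + ‖p F - w‖ := norm_sub_le_norm_sub_add_norm_sub _ _ _
      rw [norm_sub_rev (y j) (p F)] at h3
      push Not at h
      linarith
  have h1 := inf_lim hα hα1 hu 𝒰 h𝒰 hx2 (p := fun _ => y) (p0 := y)
    (fun j => tendsto_const_nhds) hbd
  have h2 : Tendsto (fun F => p F + ∑ j ∈ F, m j • kap α (p F - y j)) 𝒰
      (𝓝 (x + ∑' j, m j • kap α (x - y j))) := hx2.add h1
  have h3 : Tendsto (fun F => p F + ∑ j ∈ F, m j • kap α (p F - y j)) 𝒰 (𝓝 w) := by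
    simp_rw [hp2]
    exact tendsto_const_nhds
  exact tendsto_nhds_unique h2 h3

theorem exists_homeo {α : ℝ} (hα : 0 < α) (hα1 : α < 1) (hm : ∀ i, 0 < m i)
    (hy : LocMass m y 3 (1 / 8)) : ∃ Φ : V ≃ₜ V, ∀ x, Φ x = fm α m y x := by
  have hc : 0 < (1 - α) / 2 := by linarith
  have hinj : Function.Injective (fm α m y) := by
    intro x x' h
    have h1 := hom_expand hα hα1 hm hy x' x
    rw [h, dist_self] at h1
    have h2 : dist x x' ≤ 0 := by
      by_contra h3
      push Not at h3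
      nlinarith
    exact dist_le_zero.mp h2
  have hsurj : Function.Surjective (fm α m y) := hom_surj hα hα1 hm hy
  let e : V ≃ V := Equiv.ofBijective (fm α m y) ⟨hinj, hsurj⟩
  have he : ∀ x, e x = fm α m y x := fun x => rfl
  have hinv : Continuous e.symm := by
    have h1 : LipschitzWith (Real.toNNReal ((1 - α) / 2)⁻¹) e.symm := by
      refine LipschitzWith.of_dist_le_mul fun a b => ?_
      rw [Real.coe_toNNReal _ (inv_nonneg.mpr hc.le)]
      have h2 := hom_expand hα hα1 hm hy (e.symm b) (e.symm a)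
      rw [← he, ← he, e.apply_symm_apply, e.apply_symm_apply] at h2
      rw [inv_mul_eq_div, le_div_iff₀ hc]
      linarith
    exact h1.continuous
  exact ⟨⟨e, hom_cont hα hα1 hm hy, hinv⟩, fun x => rfl⟩

end QCA
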