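import Pool.Agent.H84.QC.K1

/-! # Module SUMM: summability

All sums are dominated by the summable family `if ‖y i - x‖ ≤ 3 then m i else 0` (finite partial
sums are `≤ 1/8` by `LocMass`: `summable_of_sum_le`, `tsum_le_of_sum_le'`...). `κ(x - y i) = 0` unless
`‖x - y i‖ < 1`; `wt α (‖x - y i‖ + t) - 1 = 0` unless `‖x - y i‖ + t < 1`, and it is
`≤ wt α t - 1` in general (`t > 0`).
-/

open Metric Set

namespace QCA

variable {V : Type*} [NormedAddCommGroup V] [InnerProductSpace ℝ V]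
  {ι : Type*} {m : ι → ℝ} {y : ι → V}

theorem summ_nonneg (hm : ∀ i, 0 < m i) (x : V) (i : ι) :
    0 ≤ (if ‖y i - x‖ ≤ 3 then m i else 0) := by
  split_ifs
  · exact (hm i).le
  · exact le_rfl

theorem summ_sum (hy : LocMass m y 3 (1 / 8)) (x : V) (F : Finset ι) :
    ∑ i ∈ F, (if ‖y i - x‖ ≤ 3 then m i else 0) ≤ 1 / 8 := by
  classical
  rw [← Finset.sum_filter]
  exact hy x _ fun i hi => (Finset.mem_filter.mp hi).2

theorem summable_mass (hm : ∀ i, 0 < m i) (hy : LocMass m y 3 (1 / 8)) (x : V) :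
    Summable (fun i => if ‖y i - x‖ ≤ 3 then m i else 0) ∧
      ∑' i, (if ‖y i - x‖ ≤ 3 then m i else 0) ≤ 1 / 8 := by
  have h0 : 0 ≤ (fun i => if ‖y i - x‖ ≤ 3 then m i else 0) := fun i => summ_nonneg hm x i
  exact ⟨summable_of_sum_le h0 (summ_sum hy x), Real.tsum_le_of_sum_le h0 (summ_sum hy x)⟩

/-- any family supported in a ball of radius 3 and bounded by `c * m i` -/
theorem summable_near {W : Type*} [NormedAddCommGroup W] [CompleteSpace W] (hm : ∀ i, 0 < m i)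
    (hy : LocMass m y 3 (1 / 8)) (x : V) {g : ι → W} {c : ℝ} (hc : 0 ≤ c)
    (hg : ∀ i, ‖g i‖ ≤ c * m i) (hg0 : ∀ i, 3 < ‖y i - x‖ → g i = 0) :
    Summable g ∧ ‖∑' i, g i‖ ≤ c / 8 := by
  obtain ⟨h1, h2⟩ := summable_mass hm hy x
  have h3 : ∀ i, ‖g i‖ ≤ c * (if ‖y i - x‖ ≤ 3 then m i else 0) := by
    intro i
    split_ifs with h
    · exact hg i
    · rw [hg0 i (not_le.mp h), norm_zero, mul_zero]
  refine ⟨Summable.of_norm_bounded (h1.mul_left c) h3, ?_⟩
  refine (tsum_of_norm_bounded (h1.mul_left c).hasSum h3).trans ?_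
  rw [tsum_mul_left]
  calc c * ∑' i, (if ‖y i - x‖ ≤ 3 then m i else 0) ≤ c * (1 / 8) :=
        mul_le_mul_of_nonneg_left h2 hc
    _ = c / 8 := by ring

theorem summ_kap {α : ℝ} (hα : 0 < α) (hα1 : α < 1) (hm : ∀ i, 0 < m i) (x : V) (i : ι) :
    ‖m i • kap α (x - y i)‖ ≤ 1 * m i := by
  rw [norm_smul, Real.norm_of_nonneg (hm i).le, one_mul]
  calc m i * ‖kap α (x - y i)‖ ≤ m i * 1 :=
        mul_le_mul_of_nonneg_left (norm_kap_le hα hα1 _) (hm i).le
    _ = m i := mul_one _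

theorem summ_kap0 {α : ℝ} (hα : 0 < α) (x : V) (i : ι) (h : 3 < ‖y i - x‖) :
    m i • kap α (x - y i) = 0 := by
  rw [kap_eq_zero hα, smul_zero]
  rw [norm_sub_rev]
  linarith

theorem summable_kap [CompleteSpace V] {α : ℝ} (hα : 0 < α) (hα1 : α < 1) (hm : ∀ i, 0 < m i)
    (hy : LocMass m y 3 (1 / 8)) (x : V) : Summable (fun i => m i • kap α (x - y i)) :=
  (summable_near hm hy x zero_le_one (summ_kap hα hα1 hm x) (fun i => summ_kap0 hα x i)).1

theorem norm_fm_sub_le [CompleteSpace V] {α : ℝ} (hα : 0 < α) (hα1 : α < 1) (hm : ∀ i, 0 < m i)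
    (hy : LocMass m y 3 (1 / 8)) (x : V) : ‖fm α m y x - x‖ ≤ 1 / 8 := by
  have h := (summable_near hm hy x zero_le_one (summ_kap hα hα1 hm x)
    (fun i => summ_kap0 hα x i)).2
  unfold fm
  rw [add_sub_cancel_left]
  exact h

theorem summable_TT {α : ℝ} (hα : 0 < α) (hm : ∀ i, 0 < m i)
    (hy : LocMass m y 3 (1 / 8)) (x : V) {t : ℝ} (ht : 0 < t) :
    Summable (fun i => m i * (wt α (‖x - y i‖ + t) - 1)) := by
  have hc : 0 ≤ wt α t - 1 := by linarith [one_le_wt α t]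
  refine (summable_near (g := fun i => m i * (wt α (‖x - y i‖ + t) - 1)) hm hy x hc ?_ ?_).1
  · intro i
    have h1 : 0 ≤ wt α (‖x - y i‖ + t) - 1 := by linarith [one_le_wt α (‖x - y i‖ + t)]
    have h2 : wt α (‖x - y i‖ + t) ≤ wt α t :=
      wt_anti hα ht (by linarith [norm_nonneg (x - y i)])
    rw [Real.norm_of_nonneg (mul_nonneg (hm i).le h1), mul_comm]
    exact mul_le_mul_of_nonneg_right (by linarith) (hm i).le
  · intro i hi
    have h1 : wt α (‖x - y i‖ + t) = 1 := wt_eq_one hα (by rw [norm_sub_rev]; linarith)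
    show m i * (wt α (‖x - y i‖ + t) - 1) = 0
    rw [h1, sub_self, mul_zero]

end QCA
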