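import Pool.Agent.H84.QC.FIN
import Pool.Agent.H84.QC.SUMM

/-! # Module INF: equilibrium positions for infinitely many masses

`K = Set.pi univ (fun i => closedBall (z i) (1/2))` is compact.  For every finite `F` take the
solution `y^F ∈ K` of `fin_system`.  Take an ultrafilter `𝒰 ≤ atTop` on `Finset ι` and the limit
`y ∈ K` of `y^F` along `𝒰` (pointwise).  For `y ∈ K`: `‖y i - y j‖ < 1` implies `‖z i - z j‖ ≤ 2`, so
`|m j κ(y i - y j)| ≤ u j := if ‖z j - z i‖ ≤ 2 then m j else 0`, which is summable (`hz`).  So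
`Ψ_i(y) = ∑' j, m j κ(y i - y j)` is continuous on `K` (`continuousOn_tsum`) and
`‖Ψ_i(y^F) - ∑_{j∈F} ...‖ ≤ ∑_{j∉F} u j → 0`.
`locMass_of_near`: triangle inequality.
-/

open Metric Set Filter Topology

namespace QCA

variable {V : Type*} [NormedAddCommGroup V] [InnerProductSpace ℝ V] [FiniteDimensional ℝ V]
  {ι : Type*} {m : ι → ℝ} {z y : ι → V}

omit [InnerProductSpace ℝ V] [FiniteDimensional ℝ V] in
theorem locMass_of_near (hz : LocMass m z 4 (1 / 8)) (hy : ∀ i, ‖y i - z i‖ ≤ 1 / 2) :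
    LocMass m y 3 (1 / 8) := by
  intro x F hF
  refine hz x F fun i hi => ?_
  have h1 := hF i hi
  have h2 := hy i
  have h3 : ‖z i - x‖ ≤ ‖z i - y i‖ + ‖y i - x‖ := norm_sub_le_norm_sub_add_norm_sub _ _ _
  rw [norm_sub_rev] at h2
  linarith

/-- INF: passage to the limit in `∑ m j κ(a - p j)` along an ultrafilter of finite sets -/
theorem inf_lim {α : ℝ} (hα : 0 < α) (hα1 : α < 1) {u : ι → ℝ} (hu : Summable u)
    (𝒰 : Ultrafilter (Finset ι)) (h𝒰 : (𝒰 : Filter (Finset ι)) ≤ atTop)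
    {a : Finset ι → V} {a0 : V} (ha : Tendsto a 𝒰 (𝓝 a0))
    {p : Finset ι → ι → V} {p0 : ι → V} (hp : ∀ j, Tendsto (fun F => p F j) 𝒰 (𝓝 (p0 j)))
    (hb : ∀ F j, ‖m j • kap α (a F - p F j)‖ ≤ u j) :
    Tendsto (fun F => ∑ j ∈ F, m j • kap α (a F - p F j)) 𝒰 (𝓝 (∑' j, m j • kap α (a0 - p0 j))) := by
  classical
  have hu0 : ∀ j, 0 ≤ u j := fun j => (norm_nonneg _).trans (hb ∅ j)
  have e1 : ∀ F : Finset ι, ∑ j ∈ F, m j • kap α (a F - p F j) =
      ∑' j, (if j ∈ F then m j • kap α (a F - p F j) else 0) := by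
    intro F
    rw [tsum_eq_sum (s := F) (fun j hj => if_neg hj)]
    exact Finset.sum_congr rfl fun j hj => (if_pos hj).symm
  simp_rw [e1]
  refine tendsto_tsum_of_dominated_convergence (bound := u) hu ?_ ?_
  · intro j
    have h1 : Tendsto (fun F => m j • kap α (a F - p F j)) 𝒰 (𝓝 (m j • kap α (a0 - p0 j))) :=
      (((kap_cont hα hα1).tendsto _).comp (ha.sub (hp j))).const_smul (m j)
    refine h1.congr' ?_
    have h2 : ∀ᶠ F in (𝒰 : Filter (Finset ι)), j ∈ F := by
      refine h𝒰 ?_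
      filter_upwards [eventually_ge_atTop ({j} : Finset ι)] with F hF
      exact hF (Finset.mem_singleton_self j)
    filter_upwards [h2] with F hF
    rw [if_pos hF]
  · refine Eventually.of_forall fun F j => ?_
    split_ifs
    · exact hb F j
    · rw [norm_zero]
      exact hu0 j

theorem inf_system {α : ℝ} (hα : 0 < α) (hα1 : α < 1) (hm : ∀ i, 0 < m i)
    (hz : LocMass m z 4 (1 / 8)) :
    ∃ y : ι → V, (∀ i, ‖y i - z i‖ ≤ 1 / 2) ∧ ∀ i, fm α m y (y i) = z i := by
  classical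
  have hF : ∀ F : Finset ι, ∃ y : ι → V, (∀ i, ‖y i - z i‖ ≤ 1 / 2) ∧
      ∀ i ∈ F, y i + ∑ j ∈ F, m j • kap α (y i - y j) = z i :=
    fun F => fin_system hα hα1 hm hz F
  choose p hp1 hp2 using hF
  let 𝒰 : Ultrafilter (Finset ι) := Ultrafilter.of atTop
  have h𝒰 : (𝒰 : Filter (Finset ι)) ≤ atTop := Ultrafilter.of_le atTop
  have hlim : ∀ i, ∃ l ∈ closedBall (z i) (1 / 2), Tendsto (fun F => p F i) 𝒰 (𝓝 l) := by
    intro i
    have hc : IsCompact (closedBall (z i) (1 / 2)) := isCompact_closedBall _ _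
    have hmem : ∀ F, p F i ∈ closedBall (z i) (1 / 2) := fun F => by
      rw [mem_closedBall, dist_eq_norm]
      exact hp1 F i
    obtain ⟨l, hl, hle⟩ := hc.ultrafilter_le_nhds (𝒰.map fun F => p F i) (by
      rw [le_principal_iff]
      exact Filter.mem_map.mpr (Filter.univ_mem' hmem))
    exact ⟨l, hl, hle⟩
  choose y hy1 hy2 using hlim
  have hyz : ∀ i, ‖y i - z i‖ ≤ 1 / 2 := fun i => by
    rw [← dist_eq_norm]
    exact hy1 i
  refine ⟨y, hyz, fun i => ?_⟩
  -- the dominating family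
  have hu : Summable (fun j => if ‖z j - z i‖ ≤ 3 then m j else 0) :=
    (summable_mass hm (show LocMass m z 3 (1 / 8) from fun x F hF =>
      hz x F fun j hj => (hF j hj).trans (by norm_num)) (z i)).1
  have hbd : ∀ F j, ‖m j • kap α (p F i - p F j)‖ ≤ (if ‖z j - z i‖ ≤ 3 then m j else 0) := by
    intro F j
    split_ifs with h
    · rw [norm_smul, Real.norm_of_nonneg (hm j).le]
      calc m j * ‖kap α (p F i - p F j)‖ ≤ m j * 1 :=
            mul_le_mul_of_nonneg_left (norm_kap_le hα hα1 _) (hm j).le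
        _ = m j := mul_one _
    · rw [kap_eq_zero hα, smul_zero, norm_zero]
      have h1 := hp1 F i
      have h2 := hp1 F j
      have h3 : ‖z j - z i‖ ≤ ‖z j - p F j‖ + ‖p F j - p F i‖ + ‖p F i - z i‖ := by
        have e : z j - z i = (z j - p F j) + (p F j - p F i) + (p F i - z i) := by abel
        rw [e]
        exact norm_add₃_le
      rw [norm_sub_rev (z j) (p F j), norm_sub_rev (p F j) (p F i)] at h3
      push Not at h
      linarith
  have h1 := inf_lim hα hα1 hu 𝒰 h𝒰 (hy2 i) hy2 hbd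
  have h2 : Tendsto (fun F => p F i + ∑ j ∈ F, m j • kap α (p F i - p F j)) 𝒰
      (𝓝 (y i + ∑' j, m j • kap α (y i - y j))) := (hy2 i).add h1
  have h3 : Tendsto (fun F => p F i + ∑ j ∈ F, m j • kap α (p F i - p F j)) 𝒰 (𝓝 (z i)) := by
    refine tendsto_const_nhds.congr' ?_
    have h4 : ∀ᶠ F in (𝒰 : Filter (Finset ι)), i ∈ F := by
      refine h𝒰 ?_
      filter_upwards [eventually_ge_atTop ({i} : Finset ι)] with F hF
      exact hF (Finset.mem_singleton_self i)
    filter_upwards [h4] with F hF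
    exact (hp2 F i hF).symm
  exact tendsto_nhds_unique h2 h3

end QCA
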