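import Pool.Agent.H84.QC.Defs

/-! # Module K1: the weight and the kernel

`a, b` vectors, `A = |a|`, `B = |b|`, WLOG `A ≥ B`, `w_a = wt A ≤ w_b = wt B` (if `B > 0`; for
`b = 0` everything is direct because `hm 0 = 0`).
* `hm_mono`: `⟪w_a a - w_b b, a - b⟫ = (w_a + w_b)/2 |a-b|² + (w_a - w_b)/2 (A² - B²)`, and
  `|a - b|² ≥ (A - B)²`; so the difference of the two sides is at least its value in the collinear
  case, `(A - B) (φ A - φ B - (1-α) w_a (A - B)) ≥ 0`, `φ t = t wt t = max (t^(1-α)) t`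
  (`A^(1-α) - B^(1-α) ≥ (1-α) A^(-α) (A - B)` by concavity / `Real.one_add_mul_self_le_rpow...`
  resp. Bernoulli; if `A ≥ 1 > B`: `A - B^(1-α) ≥ (A - 1) + (1-α)(1 - B)`).
* `hm_upper`: if `B < A/2` then `|a-b| ≥ A/2` and `|hm a - hm b| ≤ φ A + φ B ≤ 2 φ A ≤ 4 w_a |a-b|`.
  If `B ≥ A/2` then `w_b ≤ 2^α w_a ≤ 2 w_a` and
  `|hm a - hm b|² = w_a w_b |a-b|² + (w_b - w_a)(w_b B² - w_a A²) ≤ w_a w_b |a-b|²`
  (`w t²` is increasing).
-/

namespace QCA

variable {V : Type*} [NormedAddCommGroup V] [InnerProductSpace ℝ V]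

theorem one_le_wt (α t : ℝ) : 1 ≤ wt α t := le_max_right _ _

theorem wt_anti {α : ℝ} (hα : 0 < α) {s t : ℝ} (hs : 0 < s) (hst : s ≤ t) : wt α t ≤ wt α s := by
  unfold wt
  refine max_le_max ?_ le_rfl
  exact Real.rpow_le_rpow_of_nonpos hs hst (by linarith)

theorem wt_eq_one {α : ℝ} (hα : 0 < α) {t : ℝ} (ht : 1 ≤ t) : wt α t = 1 := by
  unfold wt
  exact max_eq_right (Real.rpow_le_one_of_one_le_of_nonpos ht (by linarith))

/-- at least `t^(-α)` -/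
theorem rpow_le_wt (α t : ℝ) : t ^ (-α) ≤ wt α t := le_max_left _ _

theorem wt_scale {α : ℝ} (hα : 0 < α) {t l : ℝ} (ht : 0 < t) (hl : 1 ≤ l) :
    l ^ (-α) * wt α t ≤ wt α (l * t) := by
  have hl0 : 0 < l := by linarith
  unfold wt
  rw [mul_max_of_nonneg _ _ (Real.rpow_nonneg hl0.le _), Real.mul_rpow hl0.le ht.le]
  refine max_le_max le_rfl ?_
  rw [mul_one]
  exact Real.rpow_le_one_of_one_le_of_nonpos hl (by linarith)

theorem k1_div {α : ℝ} (hα : 0 < α) (hα1 : α < 1) {t c : ℝ} (ht : 0 < t) (hc : 1 ≤ c) :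
    wt α (t / c) ≤ c * wt α t := by
  have hc0 : 0 < c := by linarith
  unfold wt
  rw [mul_max_of_nonneg _ _ hc0.le, Real.div_rpow ht.le hc0.le, mul_one]
  refine max_le_max ?_ hc
  rw [div_eq_mul_inv, ← Real.rpow_neg hc0.le, neg_neg, mul_comm]
  refine mul_le_mul_of_nonneg_right ?_ (Real.rpow_nonneg ht.le _)
  calc c ^ α ≤ c ^ (1 : ℝ) := Real.rpow_le_rpow_of_exponent_le hc hα1.le
    _ = c := Real.rpow_one c

theorem wt_third {α : ℝ} (hα : 0 < α) (hα1 : α < 1) {t : ℝ} (ht : 0 < t) :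
    wt α (t / 3) ≤ 3 * wt α t :=
  k1_div hα hα1 ht (by norm_num)

theorem wt_le_rpow {α : ℝ} (hα : 0 < α) {t : ℝ} (ht : 0 < t) (ht1 : t ≤ 1) :
    wt α t = t ^ (-α) := by
  unfold wt
  exact max_eq_left (Real.one_le_rpow_of_pos_of_le_one_of_nonpos ht ht1 (by linarith))

/-- Bernoulli -/
theorem k1_bern {α : ℝ} (hα : 0 < α) (hα1 : α < 1) {B : ℝ} (hB : 0 ≤ B) :
    B ^ (1 - α) ≤ 1 + (1 - α) * (B - 1) := by
  have h := rpow_one_add_le_one_add_mul_self (s := B - 1) (by linarith) (p := 1 - α)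
    (by linarith) (by linarith)
  have h2 : 1 + (B - 1) = B := by ring
  rwa [h2] at h

theorem k1_wt_mul {α : ℝ} (hα : 0 < α) {t : ℝ} (ht : 0 < t) (ht1 : t ≤ 1) :
    wt α t * t = t ^ (1 - α) := by
  rw [wt_le_rpow hα ht ht1, sub_eq_neg_add, Real.rpow_add ht, Real.rpow_one]

theorem k1_phi {α : ℝ} (hα : 0 < α) (hα1 : α < 1) {A B : ℝ} (hB : 0 < B) (hBA : B ≤ A) :
    (1 - α) * wt α A * (A - B) ≤ wt α A * A - wt α B * B := by
  have hA : 0 < A := lt_of_lt_of_le hB hBA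
  rcases le_total 1 B with h1 | h1
  · rw [wt_eq_one hα h1, wt_eq_one hα (h1.trans hBA)]
    nlinarith
  · rcases le_total A 1 with h2 | h2
    · rw [wt_le_rpow hα hA h2, wt_le_rpow hα hB h1]
      have h3 := k1_bern hα hα1 (B := B / A) (by positivity)
      have h4 : B ^ (-α) * B = A ^ (-α) * A * (B / A) ^ (1 - α) := by
        have e1 : B ^ (-α) * B = B ^ (1 - α) := by
          rw [sub_eq_neg_add, Real.rpow_add hB, Real.rpow_one]
        have e2 : A ^ (-α) * A = A ^ (1 - α) := by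
          rw [sub_eq_neg_add, Real.rpow_add hA, Real.rpow_one]
        rw [e1, e2, Real.div_rpow hB.le hA.le, mul_div_cancel₀]
        exact (Real.rpow_pos_of_pos hA _).ne'
      rw [h4]
      have h5 : 0 ≤ A ^ (-α) * A := by positivity
      have h6 : A ^ (-α) * A * (B / A) ^ (1 - α) ≤ A ^ (-α) * A * (1 + (1 - α) * (B / A - 1)) :=
        mul_le_mul_of_nonneg_left h3 h5
      have h7 : A ^ (-α) * A * (1 + (1 - α) * (B / A - 1)) =
          A ^ (-α) * A - (1 - α) * A ^ (-α) * (A - B) := by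
        field_simp
        ring
      linarith
    · rw [wt_eq_one hα h2, k1_wt_mul hα hB h1]
      have h3 := k1_bern hα hα1 hB.le
      nlinarith

theorem k1_phi_mono {α : ℝ} (hα : 0 < α) (hα1 : α < 1) {A B : ℝ} (hB : 0 ≤ B) (hBA : B ≤ A) :
    wt α B * B ≤ wt α A * A := by
  rcases hB.eq_or_lt with rfl | hB
  · rw [mul_zero]
    exact mul_nonneg (by linarith [one_le_wt α A]) hBA
  · have h1 := k1_phi hα hα1 hB hBA
    have h2 : 0 ≤ (1 - α) * wt α A * (A - B) :=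
      mul_nonneg (mul_nonneg (by linarith) (by linarith [one_le_wt α A])) (by linarith)
    linarith

theorem k1_mono_aux {α : ℝ} (hα : 0 < α) (hα1 : α < 1) (a b : V) (hba : ‖b‖ ≤ ‖a‖) :
    (1 - α) * wt α ‖a‖ * ‖a - b‖ ^ 2 ≤ inner ℝ (hm α a - hm α b) (a - b) := by
  have hw := one_le_wt α ‖a‖
  have e1 : inner ℝ (hm α a - hm α b) (a - b) = wt α ‖a‖ * ‖a‖ ^ 2 + wt α ‖b‖ * ‖b‖ ^ 2 -
      (wt α ‖a‖ + wt α ‖b‖) * inner ℝ a b := by
    unfold hm
    rw [inner_sub_left, inner_sub_right, inner_sub_right, real_inner_smul_left,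
      real_inner_smul_left, real_inner_smul_left, real_inner_smul_left,
      real_inner_self_eq_norm_sq, real_inner_self_eq_norm_sq, real_inner_comm a b]
    ring
  have e2 : ‖a - b‖ ^ 2 = ‖a‖ ^ 2 + ‖b‖ ^ 2 - 2 * inner ℝ a b := by
    rw [norm_sub_sq_real]; ring
  have hc : inner ℝ a b ≤ ‖a‖ * ‖b‖ := real_inner_le_norm a b
  rw [e1, e2]
  rcases (norm_nonneg b).eq_or_lt with hb | hb
  · have hb0 : b = 0 := norm_eq_zero.mp hb.symm
    subst hb0
    simp only [norm_zero, inner_zero_right]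
    nlinarith [sq_nonneg ‖a‖, mul_nonneg (mul_nonneg hα.le (by linarith : 0 ≤ wt α ‖a‖))
      (sq_nonneg ‖a‖)]
  · have hphi := k1_phi hα hα1 hb hba
    have hwb : wt α ‖a‖ ≤ wt α ‖b‖ := wt_anti hα hb hba
    have h1 : 0 ≤ wt α ‖b‖ + wt α ‖a‖ * (2 * α - 1) := by nlinarith
    have h2 : (wt α ‖b‖ + wt α ‖a‖ * (2 * α - 1)) * inner ℝ a b ≤
        (wt α ‖b‖ + wt α ‖a‖ * (2 * α - 1)) * (‖a‖ * ‖b‖) := mul_le_mul_of_nonneg_left hc h1
    have h3 : 0 ≤ (‖a‖ - ‖b‖) * (wt α ‖a‖ * ‖a‖ - wt α ‖b‖ * ‖b‖ -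
        (1 - α) * wt α ‖a‖ * (‖a‖ - ‖b‖)) := mul_nonneg (by linarith) (by linarith)
    nlinarith

theorem hm_mono {α : ℝ} (hα : 0 < α) (hα1 : α < 1) (a b : V) :
    (1 - α) * wt α (max ‖a‖ ‖b‖) * ‖a - b‖ ^ 2 ≤ inner ℝ (hm α a - hm α b) (a - b) := by
  rcases le_total ‖b‖ ‖a‖ with h | h
  · rw [max_eq_left h]
    exact k1_mono_aux hα hα1 a b h
  · rw [max_eq_right h]
    have h1 := k1_mono_aux hα hα1 b a h
    rw [norm_sub_rev] at h1
    have e : inner ℝ (hm α a - hm α b) (a - b) = inner ℝ (hm α b - hm α a) (b - a) := by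
      rw [← neg_sub (hm α b), ← neg_sub b a, inner_neg_neg]
    rw [e]
    exact h1

theorem k1_upper_aux {α : ℝ} (hα : 0 < α) (hα1 : α < 1) (a b : V) (hba : ‖b‖ ≤ ‖a‖) :
    ‖hm α a - hm α b‖ ≤ 4 * wt α ‖a‖ * ‖a - b‖ := by
  have hw := one_le_wt α ‖a‖
  have hwb1 := one_le_wt α ‖b‖
  have hna : ‖hm α a‖ = wt α ‖a‖ * ‖a‖ := by
    unfold hm
    rw [norm_smul, Real.norm_of_nonneg (by linarith)]
  have hnb : ‖hm α b‖ = wt α ‖b‖ * ‖b‖ := by
    unfold hm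
    rw [norm_smul, Real.norm_of_nonneg (by linarith)]
  have hphi := k1_phi_mono hα hα1 (norm_nonneg b) hba
  rcases lt_or_ge ‖b‖ (‖a‖ / 2) with h | h
  · have h1 : ‖hm α a - hm α b‖ ≤ wt α ‖a‖ * ‖a‖ + wt α ‖b‖ * ‖b‖ := by
      rw [← hna, ← hnb]
      exact norm_sub_le _ _
    have h2 : ‖a‖ - ‖b‖ ≤ ‖a - b‖ := norm_sub_norm_le a b
    nlinarith
  · rcases (norm_nonneg a).eq_or_lt with ha | ha
    · have hb0 : ‖b‖ = 0 := le_antisymm (by linarith) (norm_nonneg b)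
      have ha' : a = 0 := norm_eq_zero.mp ha.symm
      have hb' : b = 0 := norm_eq_zero.mp hb0
      subst ha' hb'
      simp
    · have hb : 0 < ‖b‖ := by linarith
      have hwab : wt α ‖a‖ ≤ wt α ‖b‖ := wt_anti hα hb hba
      have hwb : wt α ‖b‖ ≤ 2 * wt α ‖a‖ := by
        have h3 : wt α ‖b‖ ≤ wt α (‖a‖ / 2) := wt_anti hα (by linarith) h
        exact h3.trans (k1_div hα hα1 ha (by norm_num))
      have e1 : ‖hm α a - hm α b‖ ^ 2 = wt α ‖a‖ * wt α ‖b‖ * ‖a - b‖ ^ 2 +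
          (wt α ‖b‖ - wt α ‖a‖) * (wt α ‖b‖ * ‖b‖ ^ 2 - wt α ‖a‖ * ‖a‖ ^ 2) := by
        rw [norm_sub_sq_real, norm_sub_sq_real, hna, hnb]
        unfold hm
        rw [real_inner_smul_left, real_inner_smul_right]
        ring
      have h4 : wt α ‖b‖ * ‖b‖ ^ 2 ≤ wt α ‖a‖ * ‖a‖ ^ 2 := by
        nlinarith [mul_le_mul hphi hba (norm_nonneg b) (by positivity)]
      have h5 : ‖hm α a - hm α b‖ ^ 2 ≤ wt α ‖a‖ * wt α ‖b‖ * ‖a - b‖ ^ 2 := by
        rw [e1]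
        nlinarith
      have h6 : wt α ‖a‖ * wt α ‖b‖ * ‖a - b‖ ^ 2 ≤ (4 * wt α ‖a‖ * ‖a - b‖) ^ 2 := by
        have h7 : wt α ‖a‖ * wt α ‖b‖ ≤ 16 * wt α ‖a‖ ^ 2 := by nlinarith
        calc wt α ‖a‖ * wt α ‖b‖ * ‖a - b‖ ^ 2 ≤ 16 * wt α ‖a‖ ^ 2 * ‖a - b‖ ^ 2 :=
              mul_le_mul_of_nonneg_right h7 (sq_nonneg _)
          _ = (4 * wt α ‖a‖ * ‖a - b‖) ^ 2 := by ring
      exact le_of_sq_le_sq (h5.trans h6) (by positivity)

theorem hm_upper {α : ℝ} (hα : 0 < α) (hα1 : α < 1) (a b : V) :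
    ‖hm α a - hm α b‖ ≤ 4 * wt α (max ‖a‖ ‖b‖) * ‖a - b‖ := by
  rcases le_total ‖b‖ ‖a‖ with h | h
  · rw [max_eq_left h]
    exact k1_upper_aux hα hα1 a b h
  · rw [max_eq_right h, norm_sub_rev (hm α a), norm_sub_rev a]
    exact k1_upper_aux hα hα1 b a h

theorem kap_eq (α : ℝ) (v : V) : kap α v = hm α v - v := by
  unfold kap hm
  rw [sub_smul, one_smul]

theorem kap_zero (α : ℝ) : kap α (0 : V) = 0 := by
  unfold kap
  rw [smul_zero]

theorem kap_neg (α : ℝ) (v : V) : kap α (-v) = -kap α v := by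
  unfold kap
  rw [norm_neg, smul_neg]

theorem kap_eq_zero {α : ℝ} (hα : 0 < α) {v : V} (hv : 1 ≤ ‖v‖) : kap α v = 0 := by
  unfold kap
  rw [wt_eq_one hα hv, sub_self, zero_smul]

theorem k1_norm_kap {α : ℝ} (hα : 0 < α) (hα1 : α < 1) (v : V) :
    ‖kap α v‖ ≤ min 1 (‖v‖ ^ (1 - α)) := by
  rcases (norm_nonneg v).eq_or_lt with h | h
  · have hv : v = 0 := norm_eq_zero.mp h.symm
    subst hv
    rw [kap_zero, norm_zero]
    exact le_min zero_le_one (Real.rpow_nonneg le_rfl _)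
  · rcases le_total 1 ‖v‖ with h1 | h1
    · rw [kap_eq_zero hα h1, norm_zero]
      exact le_min zero_le_one (Real.rpow_nonneg h.le _)
    · unfold kap
      rw [norm_smul, Real.norm_of_nonneg (by linarith [one_le_wt α ‖v‖]), sub_mul,
        k1_wt_mul hα h h1, one_mul]
      have h2 : ‖v‖ ^ (1 - α) ≤ 1 := Real.rpow_le_one h.le h1 (by linarith)
      exact le_min (by linarith) (by linarith)

theorem norm_kap_le {α : ℝ} (hα : 0 < α) (hα1 : α < 1) (v : V) : ‖kap α v‖ ≤ 1 :=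
  (k1_norm_kap hα hα1 v).trans (min_le_left _ _)

theorem kap_cont {α : ℝ} (hα : 0 < α) (hα1 : α < 1) : Continuous (kap α : V → V) := by
  rw [continuous_iff_continuousAt]
  intro v
  by_cases hv : v = 0
  · subst hv
    rw [ContinuousAt, kap_zero]
    refine squeeze_zero_norm (a := fun v : V => ‖v‖ ^ (1 - α))
      (fun v => (k1_norm_kap hα hα1 v).trans (min_le_right _ _)) ?_
    have h1 : ContinuousAt (fun v : V => ‖v‖ ^ (1 - α)) 0 :=
      (continuous_norm.continuousAt).rpow_const (Or.inr (by linarith))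
    have h2 : ‖(0 : V)‖ ^ (1 - α) = 0 := by
      rw [norm_zero]
      exact Real.zero_rpow (by linarith)
    rw [ContinuousAt, h2] at h1
    exact h1
  · have hn : ‖v‖ ≠ 0 := norm_ne_zero_iff.mpr hv
    have h1 : ContinuousAt (fun v : V => wt α ‖v‖) v := by
      unfold wt
      exact ((continuous_norm.continuousAt).rpow_const (Or.inl hn)).max continuousAt_const
    exact (h1.sub continuousAt_const).smul continuousAt_id

end QCA
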