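import Pool.Agent.H84.QC.SHR
import Pool.Agent.H84.QC.DA
import Pool.Agent.H84.QC.DB
import Pool.Agent.H84.QC.DC

/-! # Module MAIN -/

open Metric Set
open scoped ENNReal

namespace QCA

variable {V : Type*} [NormedAddCommGroup V] [InnerProductSpace ℝ V] [FiniteDimensional ℝ V]

theorem qcdim_eq_zero {θ : ℝ} (hθ : 0 ≤ θ) (hθ1 : θ < 1) {E : Set V} (hE : dimA θ E < 1) :
    qcdim θ E = 0 := by
  rw [← nonpos_iff_eq_zero]
  refine ENNReal.le_of_forall_pos_le_add fun η hη _ => ?_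
  rw [zero_add]
  have hη' : (0 : ℝ) < η := by exact_mod_cast hη
  rcases hθ.eq_or_lt with h0 | h0
  · subst h0
    unfold dimA at hE
    rw [if_pos rfl] at hE
    obtain ⟨C, s, hs0, hs1, hL⟩ := lpb_of_ubdim hE
    obtain ⟨f, hf, hfw, C', hC'⟩ := shrink hs0 hs1 hL hη'
    have hb : Bornology.IsBounded (f '' E) := by
      obtain ⟨R, hR⟩ := (bounded_of_ubdim hE).exists_norm_le
      rw [isBounded_iff_forall_norm_le]
      refine ⟨R + 1, ?_⟩
      rintro _ ⟨w, hw, rfl⟩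
      have h1 := hR w hw
      have h2 := hfw w
      have h3 : ‖f w‖ ≤ ‖f w - w‖ + ‖w‖ := by simpa using norm_add_le (f w - w) w
      linarith
    have h1 : ubdim (f '' E) ≤ ENNReal.ofReal η := ubdim_le hη' hC' hb
    refine (iInf₂_le f hf).trans ?_
    unfold dimA
    rw [if_pos rfl]
    simpa using h1
  · have hne : θ ≠ 0 := h0.ne'
    unfold dimA at hE
    rw [if_neg hne] at hE
    obtain ⟨C, s, hs0, hs1, hL⟩ := lpb_of_aspec h0 hθ1 hE
    have h1θ : 0 < 1 - θ := by linarith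
    obtain ⟨f, hf, hfw, C', hC'⟩ := shrink hs0 hs1 hL (mul_pos hη' h1θ)
    have h1 := aspec_le h0 hθ1 (mul_pos hη' h1θ) hC'
    rw [mul_div_cancel_right₀ _ h1θ.ne'] at h1
    refine (iInf₂_le f hf).trans ?_
    unfold dimA
    rw [if_neg hne]
    simpa using h1

end QCA
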