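import Pool.Agent.H84.QC.Defs

/-! # Module NET: nets of `E` and the masses -/

open Metric Set

namespace QCA

variable {V : Type*} [NormedAddCommGroup V] [InnerProductSpace ℝ V]

omit [InnerProductSpace ℝ V] in
theorem net_maximal (E : Set V) (ρ : ℝ) (hρ : 0 ≤ ρ) : ∃ S : Set V, S ⊆ E ∧
    S.Pairwise (fun x y => ρ < ‖x - y‖) ∧ ∀ x ∈ E, ∃ s ∈ S, ‖s - x‖ ≤ ρ := by
  obtain ⟨S, hS⟩ := zorn_subset {S : Set V | S ⊆ E ∧ S.Pairwise (fun x y => ρ < ‖x - y‖)} (by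
    intro c hc hchain
    refine ⟨⋃₀ c, ⟨Set.sUnion_subset fun s hs => (hc hs).1, ?_⟩, fun s hs => Set.subset_sUnion_of_mem hs⟩
    exact (Set.pairwise_sUnion hchain.directedOn).2 fun s hs => (hc hs).2)
  refine ⟨S, hS.prop.1, hS.prop.2, fun x hx => ?_⟩
  by_contra hcon
  push Not at hcon
  have hxS : x ∉ S := fun h => by
    have := hcon x h
    rw [sub_self, norm_zero] at this
    linarith
  have hins : insert x S ∈ {S : Set V | S ⊆ E ∧ S.Pairwise (fun x y => ρ < ‖x - y‖)} := by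
    refine ⟨Set.insert_subset hx hS.prop.1, ?_⟩
    refine hS.prop.2.insert fun y hy _ => ⟨?_, hcon y hy⟩
    rw [norm_sub_rev]
    exact hcon y hy
  exact hxS (hS.le_of_ge hins (Set.subset_insert x S) (Set.mem_insert x S))

theorem net_rpow (s : ℝ) (k : ℕ) : ((1 / 2 : ℝ) ^ k) ^ (-s) = (2 : ℝ) ^ (s * k) := by
  rw [one_div, inv_pow, Real.inv_rpow (by positivity), Real.rpow_neg (by positivity), inv_inv,
    ← Real.rpow_natCast, ← Real.rpow_mul (by norm_num), mul_comm]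

theorem exists_net {E : Set V} {ρ C s : ℝ} (hE : LPB E ρ C s) : ∃ Z : ℕ → Set V,
    (∀ k, Z k ⊆ E) ∧ (∀ k, ∀ e ∈ E, ∃ z ∈ Z k, ‖z - e‖ ≤ (1 / 2 : ℝ) ^ k) ∧
    ∀ (k : ℕ) (x : V) (F : Finset V), (∀ a ∈ F, a ∈ Z k ∧ ‖a - x‖ ≤ ρ) →
      (F.card : ℝ) ≤ C * (2 : ℝ) ^ (s * k) := by
  choose S hSE hSs hSn using fun k : ℕ => net_maximal E ((1 / 2 : ℝ) ^ k) (by positivity)
  refine ⟨S, hSE, hSn, fun k x F hF => ?_⟩
  have h := hE x ((1 / 2 : ℝ) ^ k) (by positivity) (pow_le_one₀ (by norm_num) (by norm_num)) F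
    (fun a ha => ⟨hSE k (hF a ha).1, (hF a ha).2⟩)
    (fun a ha b hb hab => hSs k (hF a ha).1 (hF b hb).1 hab)
  rwa [net_rpow] at h

/-- the index type of the masses -/
def Idx (Z : ℕ → Set V) : Type _ := {p : ℕ × V // p.2 ∈ Z p.1}

theorem exists_mass {C s : ℝ} (hs : s < 1) (hC : 0 ≤ C) : ∃ c : ℝ, 0 < c ∧ ∀ Z : ℕ → Set V,
    (∀ (k : ℕ) (x : V) (F : Finset V), (∀ a ∈ F, a ∈ Z k ∧ ‖a - x‖ ≤ 5) →
      (F.card : ℝ) ≤ C * (2 : ℝ) ^ (s * k)) →
    LocMass (fun i : Idx Z => c * (2 : ℝ) ^ (-((1 - (1 - s) / 2) * i.1.1)))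
      (fun i : Idx Z => i.1.2) 4 (1 / 8) := by
  classical
  set q : ℝ := (2 : ℝ) ^ (-((1 - s) / 2)) with hq
  have hq0 : 0 < q := by positivity
  have hq1 : q < 1 := Real.rpow_lt_one_of_one_lt_of_neg (by norm_num) (by linarith)
  set c : ℝ := (1 - q) / (8 * (C + 1)) with hc
  have hc0 : 0 < c := div_pos (by linarith) (by positivity)
  refine ⟨c, hc0, fun Z hZ p F hF => ?_⟩
  -- the fibres of F over k
  let Fk : ℕ → Finset (Idx Z) := fun k => F.filter (fun i => i.1.1 = k)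
  have hcard : ∀ k, ((Fk k).card : ℝ) ≤ C * (2 : ℝ) ^ (s * k) := by
    intro k
    let T : Finset V := (Fk k).image (fun i => i.1.2)
    have hinj : Set.InjOn (fun i : Idx Z => i.1.2) (Fk k) := by
      intro i hi j hj hij
      have e1 : i.1.1 = k := (Finset.mem_filter.1 (Finset.mem_coe.1 hi)).2
      have e2 : j.1.1 = k := (Finset.mem_filter.1 (Finset.mem_coe.1 hj)).2
      exact Subtype.ext (Prod.ext (e1.trans e2.symm) hij)
    have hTc : T.card = (Fk k).card := Finset.card_image_of_injOn hinj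
    rw [← hTc]
    refine hZ k p T fun a ha => ?_
    obtain ⟨i, hi, rfl⟩ := Finset.mem_image.1 ha
    obtain ⟨h1, h2⟩ := Finset.mem_filter.1 hi
    refine ⟨by rw [← h2]; exact i.2, ?_⟩
    have := hF i h1
    linarith
  have hsum : ∑ i ∈ F, c * (2 : ℝ) ^ (-((1 - (1 - s) / 2) * i.1.1)) =
      ∑ k ∈ F.image (fun i => i.1.1),
        ((Fk k).card : ℝ) * (c * (2 : ℝ) ^ (-((1 - (1 - s) / 2) * (k : ℝ)))) := by
    rw [← Finset.sum_fiberwise_of_maps_to (s := F) (t := F.image (fun i => i.1.1))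
      (g := fun i => i.1.1) (fun i hi => Finset.mem_image_of_mem _ hi)]
    refine Finset.sum_congr rfl fun k _ => ?_
    rw [Finset.sum_congr rfl (g := fun _ => c * (2 : ℝ) ^ (-((1 - (1 - s) / 2) * (k : ℝ)))),
      Finset.sum_const, nsmul_eq_mul]
    intro i hi
    rw [(Finset.mem_filter.1 hi).2]
  rw [hsum]
  have hterm : ∀ k : ℕ, ((Fk k).card : ℝ) * (c * (2 : ℝ) ^ (-((1 - (1 - s) / 2) * (k : ℝ))))
      ≤ (c * (C + 1)) * q ^ k := by
    intro k
    have h1 : (2 : ℝ) ^ (s * k) * (2 : ℝ) ^ (-((1 - (1 - s) / 2) * (k : ℝ))) = q ^ k := by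
      rw [hq, ← Real.rpow_add (by norm_num), ← Real.rpow_natCast, ← Real.rpow_mul (by norm_num)]
      congr 1
      ring
    calc ((Fk k).card : ℝ) * (c * (2 : ℝ) ^ (-((1 - (1 - s) / 2) * (k : ℝ))))
        ≤ (C * (2 : ℝ) ^ (s * k)) * (c * (2 : ℝ) ^ (-((1 - (1 - s) / 2) * (k : ℝ)))) :=
          mul_le_mul_of_nonneg_right (hcard k) (by positivity)
      _ = (c * C) * ((2 : ℝ) ^ (s * k) * (2 : ℝ) ^ (-((1 - (1 - s) / 2) * (k : ℝ)))) := by ring
      _ = (c * C) * q ^ k := by rw [h1]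
      _ ≤ (c * (C + 1)) * q ^ k := by
          refine mul_le_mul_of_nonneg_right (mul_le_mul_of_nonneg_left (by linarith) hc0.le)
            (by positivity)
  calc ∑ k ∈ F.image (fun i => i.1.1),
        ((Fk k).card : ℝ) * (c * (2 : ℝ) ^ (-((1 - (1 - s) / 2) * (k : ℝ))))
      ≤ ∑ k ∈ F.image (fun i => i.1.1), (c * (C + 1)) * q ^ k :=
        Finset.sum_le_sum fun k _ => hterm k
    _ = (c * (C + 1)) * ∑ k ∈ F.image (fun i => i.1.1), q ^ k := by rw [Finset.mul_sum]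
    _ ≤ (c * (C + 1)) * (1 - q)⁻¹ := by
        refine mul_le_mul_of_nonneg_left ?_ (by positivity)
        rw [← tsum_geometric_of_lt_one hq0.le hq1]
        exact (summable_geometric_of_lt_one hq0.le hq1).sum_le_tsum _ (fun k _ => by positivity)
    _ = 1 / 8 := by
        have : 1 - q ≠ 0 := by linarith
        rw [hc]
        field_simp

end QCA
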