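import Pool.Agent.H84.QC.K1

/-! # Module POT: the kernel is a gradient

`G v = |v|^(2-α)/(2-α) - |v|²/2` for `|v| ≤ 1`, constant for `|v| ≥ 1`.
-/

open Filter Topology

namespace QCA

variable {V : Type*} [NormedAddCommGroup V] [InnerProductSpace ℝ V]

/-- POT: the inner branch -/
noncomputable def potH (α : ℝ) (v : V) : ℝ := (2 - α)⁻¹ * ‖v‖ ^ (2 - α) - 1 / 2 * ‖v‖ ^ 2

/-- POT: the potential -/
noncomputable def potG (α : ℝ) (v : V) : ℝ :=
  if ‖v‖ ≤ 1 then potH α v else (2 - α)⁻¹ - 1 / 2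

theorem pot_hasH {α : ℝ} (hα1 : α < 1) (v : V) :
    HasFDerivAt (potH α : V → ℝ) ((‖v‖ ^ (-α) - 1) • innerSL ℝ v) v := by
  have h1 := (hasFDerivAt_norm_rpow v (p := 2 - α) (by linarith)).const_mul (2 - α)⁻¹
  have h2 : HasFDerivAt (fun x : V => 1 / 2 * ‖x‖ ^ 2) (innerSL ℝ v) v := by
    have h2 := ((hasFDerivAt_id (𝕜 := ℝ) v).norm_sq).const_mul (1 / 2)
    refine h2.congr_fderiv ?_
    ext x
    simp
  refine (h1.sub h2).congr_fderiv ?_
  have h3 : (2 - α : ℝ) ≠ 0 := by linarith
  rw [smul_smul, sub_smul, one_smul, ← mul_assoc, inv_mul_cancel₀ h3, one_mul]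
  congr 3
  ring

omit [InnerProductSpace ℝ V] in
theorem pot_one {α : ℝ} {v : V} (hv : ‖v‖ = 1) : potH α v = (2 - α)⁻¹ - 1 / 2 := by
  unfold potH
  rw [hv, Real.one_rpow]
  ring

theorem exists_pot {α : ℝ} (hα : 0 < α) (hα1 : α < 1) : ∃ G : V → ℝ,
    (∀ v, HasFDerivAt G (innerSL ℝ (kap α v)) v) ∧ ∀ v, G (-v) = G v := by
  refine ⟨potG α, fun v => ?_, fun v => ?_⟩
  · have hk : innerSL ℝ (kap α v) = (wt α ‖v‖ - 1) • innerSL ℝ v := by
      unfold kap
      rw [map_smul]
    rw [hk]
    rcases lt_trichotomy ‖v‖ 1 with h | h | h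
    · have h1 : (potG α : V → ℝ) =ᶠ[𝓝 v] potH α := by
        have : ∀ᶠ w in 𝓝 v, ‖w‖ < 1 := continuous_norm.continuousAt.eventually_lt
          continuousAt_const h
        filter_upwards [this] with w hw
        unfold potG
        rw [if_pos hw.le]
      refine ((pot_hasH hα1 v).congr_of_eventuallyEq h1).congr_fderiv ?_
      rcases (norm_nonneg v).eq_or_lt with h0 | h0
      · have : v = 0 := norm_eq_zero.mp h0.symm
        subst this
        simp
      · rw [wt_le_rpow hα h0 h.le]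
    · have h1 := pot_hasH hα1 v
      rw [h, Real.one_rpow, sub_self, zero_smul] at h1
      rw [h, wt_eq_one hα le_rfl, sub_self, zero_smul]
      rw [hasFDerivAt_iff_isLittleO] at h1 ⊢
      refine Asymptotics.IsBigO.trans_isLittleO (Asymptotics.IsBigO.of_bound 1 ?_) h1
      refine Eventually.of_forall fun w => ?_
      rw [one_mul]
      have hv : potG α v = (2 - α)⁻¹ - 1 / 2 := by
        unfold potG
        rw [if_pos h.le, pot_one h]
      rw [hv, pot_one h]
      unfold potG
      split_ifs with hw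
      · exact le_rfl
      · simp
    · have h1 : (potG α : V → ℝ) =ᶠ[𝓝 v] fun _ => (2 - α)⁻¹ - 1 / 2 := by
        have : ∀ᶠ w in 𝓝 v, 1 < ‖w‖ := continuousAt_const.eventually_lt
          continuous_norm.continuousAt h
        filter_upwards [this] with w hw
        unfold potG
        rw [if_neg (by linarith)]
      refine ((hasFDerivAt_const _ v).congr_of_eventuallyEq h1).congr_fderiv ?_
      rw [wt_eq_one hα h.le, sub_self, zero_smul]
  · unfold potG potH
    rw [norm_neg]

end QCA
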