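import Pool.Agent.H84.QC.HOM

/-! # Module QCI: the inverse of `fm` is quasiconformal

Let `g = Φ.symm`, `w ∈ V`, `x = g w`, `ρ > 0`, `c = (1-α)/2`, `C = 20`, `T = TT α m y x`.
If `0 < |w' - w| ≤ ρ` and `t = |g w' - x|` then `c T(t) ≤ ρ`; if `|w'' - w| ≥ ρ` and `t'' = |g w'' - x|`
then `C T(t'') ≥ ρ`.  So `T(t) ≤ (C/c) T(t'')`.  If `t > t''`, `l = t / t''`, then
`l^(1-α) T(t'') ≤ T(t)` (`TT_scale`), so `l^(1-α) ≤ C/c`, `l ≤ H := (C/c)^(1/(1-α))` (and `H ≥ 1`).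
So `edist (g w') x ≤ H * edist (g w'') x`, hence `outerR g w ρ ≤ H * innerR g w ρ` and the ratio is
`≤ H` (`ENNReal.div_le_of_le_mul`), for every `ρ > 0`.
-/

open Metric Set

namespace QCA

variable {V : Type*} [NormedAddCommGroup V] [InnerProductSpace ℝ V] [FiniteDimensional ℝ V]
  {ι : Type*} {m : ι → ℝ} {y : ι → V}

/-- QCI: the comparison of the two radii -/
theorem qci_comp {α : ℝ} (hα : 0 < α) (hα1 : α < 1) (hm : ∀ i, 0 < m i)
    (hy : LocMass m y 3 (1 / 8)) {Φ : V ≃ₜ V} (hΦ : ∀ x, Φ x = fm α m y x)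
    {w w' w'' : V} {ρ : ℝ} (hρ : 0 < ρ) (h1 : dist w' w ≤ ρ) (h2 : ρ ≤ dist w'' w) :
    dist (Φ.symm w') (Φ.symm w) ≤
      (40 / (1 - α)) ^ (1 - α)⁻¹ * dist (Φ.symm w'') (Φ.symm w) := by
  have hα' : 0 < 1 - α := by linarith
  set x := Φ.symm w with hx
  set a := Φ.symm w' with ha
  set b := Φ.symm w'' with hb
  set H := (40 / (1 - α)) ^ (1 - α)⁻¹ with hH
  have hH1 : 1 ≤ H := by
    refine Real.one_le_rpow ?_ (inv_nonneg.mpr hα'.le)
    rw [le_div_iff₀ hα']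
    linarith
  have ew : w = fm α m y x := by rw [← hΦ, hx, Φ.apply_symm_apply]
  have ew' : w' = fm α m y a := by rw [← hΦ, ha, Φ.apply_symm_apply]
  have ew'' : w'' = fm α m y b := by rw [← hΦ, hb, Φ.apply_symm_apply]
  by_cases hax : a = x
  · rw [hax, dist_self]
    exact mul_nonneg (by linarith) dist_nonneg
  have hbx : b ≠ x := by
    intro h
    rw [ew'', h, ← ew, dist_self] at h2
    linarith
  have hua : a - x ≠ 0 := sub_ne_zero.mpr hax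
  have hub : b - x ≠ 0 := sub_ne_zero.mpr hbx
  have hta : 0 < ‖a - x‖ := norm_pos_iff.mpr hua
  have htb : 0 < ‖b - x‖ := norm_pos_iff.mpr hub
  have l1 := fm_lower hα hα1 hm hy x (a - x) hua
  have l2 := fm_upper hα hα1 hm hy x (b - x) hub
  rw [add_sub_cancel, ← ew, ← ew'] at l1
  rw [add_sub_cancel, ← ew, ← ew''] at l2
  rw [dist_eq_norm] at h1 h2
  rw [dist_eq_norm, dist_eq_norm]
  rcases le_total ‖a - x‖ ‖b - x‖ with h | h
  · nlinarith
  · have hl : 1 ≤ ‖a - x‖ / ‖b - x‖ := by rw [le_div_iff₀ htb]; linarith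
    have h3 := TT_scale hα hα1 hm hy x htb hl
    rw [div_mul_cancel₀ _ htb.ne'] at h3
    have h4 : 0 < TT α m y x ‖b - x‖ := lt_of_lt_of_le htb (le_TT hα hα1 hm hy x htb)
    have h5 : (‖a - x‖ / ‖b - x‖) ^ (1 - α) ≤ 40 / (1 - α) := by
      rw [le_div_iff₀ hα']
      have h6 : (1 - α) / 2 * ((‖a - x‖ / ‖b - x‖) ^ (1 - α) * TT α m y x ‖b - x‖) ≤
          20 * TT α m y x ‖b - x‖ := by
        have h7 : 0 ≤ (1 - α) / 2 := by linarith
        have h8 := mul_le_mul_of_nonneg_left h3 h7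
        linarith
      have h9 : (1 - α) / 2 * (‖a - x‖ / ‖b - x‖) ^ (1 - α) ≤ 20 := by
        refine le_of_mul_le_mul_right ?_ h4
        rw [mul_assoc]
        exact h6
      linarith
    have h6 : ‖a - x‖ / ‖b - x‖ ≤ H := by
      have h7 : ((‖a - x‖ / ‖b - x‖) ^ (1 - α)) ^ (1 - α)⁻¹ ≤ H :=
        Real.rpow_le_rpow (by positivity) h5 (inv_nonneg.mpr hα'.le)
      rwa [← Real.rpow_mul (by positivity), mul_inv_cancel₀ hα'.ne', Real.rpow_one] at h7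
    rwa [div_le_iff₀ htb] at h6

theorem isQC_symm {α : ℝ} (hα : 0 < α) (hα1 : α < 1) (hm : ∀ i, 0 < m i)
    (hy : LocMass m y 3 (1 / 8)) {Φ : V ≃ₜ V} (hΦ : ∀ x, Φ x = fm α m y x) :
    IsQC Φ.symm := by
  have hα' : 0 < 1 - α := by linarith
  refine ⟨(40 / (1 - α)) ^ (1 - α)⁻¹, fun w => ?_⟩
  have hH : 0 ≤ (40 / (1 - α)) ^ (1 - α)⁻¹ := by positivity
  refine Filter.limsup_le_of_le ⟨0, fun _ _ => zero_le⟩ ?_
  refine Filter.eventually_of_mem self_mem_nhdsWithin fun ρ hρ => ?_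
  have hρ : 0 < ρ := hρ
  refine ENNReal.div_le_of_le_mul ?_
  have h1 : ∀ w' w'' : V, dist w' w ≤ ρ → ρ ≤ dist w'' w →
      edist (Φ.symm w') (Φ.symm w) ≤
        ENNReal.ofReal ((40 / (1 - α)) ^ (1 - α)⁻¹) * edist (Φ.symm w'') (Φ.symm w) := by
    intro w' w'' h1 h2
    rw [edist_dist, edist_dist, ← ENNReal.ofReal_mul hH]
    exact ENNReal.ofReal_le_ofReal (qci_comp hα hα1 hm hy hΦ hρ h1 h2)
  unfold outerR innerR
  refine iSup₂_le fun w' h' => ?_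
  rw [ENNReal.mul_iInf_of_ne (by positivity) ENNReal.ofReal_ne_top]
  refine le_iInf fun w'' => ?_
  rw [ENNReal.mul_iInf_of_ne (by positivity) ENNReal.ofReal_ne_top]
  exact le_iInf fun h'' => h1 w' w'' h' h''

end QCA
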