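import Pool.Agent.H84.QC.INF
import Pool.Agent.H84.QC.QCI
import Pool.Agent.H84.QC.NET

/-! # Module SHR: the shrinking theorem -/

open Metric Set

namespace QCA

variable {V : Type*} [NormedAddCommGroup V] [InnerProductSpace ℝ V] [FiniteDimensional ℝ V]

/-- scale selection -/
theorem shr_scale {A s δ C2 : ℝ} (hA : 0 < A) (hs0 : 0 ≤ s) (hsA : s / A ≤ δ) (hC2 : 0 < C2)
    (k0 : ℕ) : ∃ B : ℝ, 0 < B ∧ ∀ r : ℝ, 0 < r → r ≤ 1 → ∃ k : ℕ, k0 ≤ k ∧
      2 * (C2 * (2 : ℝ) ^ (-(A * k))) ≤ r ∧ (2 : ℝ) ^ (s * k) ≤ B * r ^ (-δ) := by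
  set b : ℝ := min (1 / (2 * C2)) 1 with hb
  have hb0 : 0 < b := lt_min (by positivity) one_pos
  set q : ℝ := (2 : ℝ) ^ (-A) with hq
  have hq0 : 0 < q := by positivity
  have hq1 : q < 1 := Real.rpow_lt_one_of_one_lt_of_neg (by norm_num) (by linarith)
  refine ⟨2 ^ (s * (k0 + 1)) * b ^ (-(s / A)), by positivity, fun r hr0 hr1 => ?_⟩
  have hrb0 : 0 < r * b := by positivity
  have hrb1 : r * b ≤ 1 := by
    calc r * b ≤ 1 * 1 := mul_le_mul hr1 (min_le_right _ _) hb0.le (by norm_num)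
      _ = 1 := by norm_num
  obtain ⟨n, hn1, hn2⟩ := exists_nat_pow_near_of_lt_one hrb0 hrb1 hq0 hq1
  have hqn : ∀ k : ℕ, (2 : ℝ) ^ (-(A * k)) = q ^ k := by
    intro k
    rw [hq, ← Real.rpow_natCast, ← Real.rpow_mul (by norm_num)]
    congr 1
    ring
  refine ⟨k0 + n + 1, by omega, ?_, ?_⟩
  · rw [hqn]
    have h1 : q ^ (k0 + n + 1) ≤ q ^ (n + 1) :=
      pow_le_pow_of_le_one hq0.le hq1.le (by omega)
    have h2 : r * b ≤ r * (1 / (2 * C2)) :=
      mul_le_mul_of_nonneg_left (min_le_left _ _) hr0.le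
    have h3 : q ^ (k0 + n + 1) ≤ r * (1 / (2 * C2)) := by linarith
    calc 2 * (C2 * q ^ (k0 + n + 1)) = (2 * C2) * q ^ (k0 + n + 1) := by ring
      _ ≤ (2 * C2) * (r * (1 / (2 * C2))) := mul_le_mul_of_nonneg_left h3 (by positivity)
      _ = r := by field_simp
  · have h1 : (2 : ℝ) ^ (s * ((k0 + n + 1 : ℕ) : ℝ)) = 2 ^ (s * (k0 + 1)) * 2 ^ (s * n) := by
      rw [← Real.rpow_add (by norm_num)]
      congr 1
      push_cast
      ring
    have h2 : (2 : ℝ) ^ (s * n) = (q ^ n) ^ (-(s / A)) := by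
      rw [← hqn, ← Real.rpow_mul (by norm_num)]
      congr 1
      field_simp
    have hsA0 : 0 ≤ s / A := div_nonneg hs0 hA.le
    have h3 : (q ^ n) ^ (-(s / A)) ≤ (r * b) ^ (-(s / A)) :=
      Real.rpow_le_rpow_of_nonpos hrb0 hn2 (by linarith)
    have h4 : (r * b) ^ (-(s / A)) = b ^ (-(s / A)) * r ^ (-(s / A)) := by
      rw [Real.mul_rpow hr0.le hb0.le, mul_comm]
    have h5 : r ^ (-(s / A)) ≤ r ^ (-δ) :=
      Real.rpow_le_rpow_of_exponent_ge hr0 hr1 (by linarith)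
    rw [h1, h2, mul_assoc]
    refine mul_le_mul_of_nonneg_left ?_ (by positivity)
    rw [h4] at h3
    exact h3.trans (mul_le_mul_of_nonneg_left h5 (by positivity))

theorem shrink {E : Set V} {C s : ℝ} (hs0 : 0 ≤ s) (hs : s < 1) (hE : LPB E 5 C s) {δ : ℝ}
    (hδ : 0 < δ) : ∃ f : V ≃ₜ V, IsQC f ∧ (∀ w, ‖f w - w‖ ≤ 1) ∧ ∃ C' : ℝ, LPB (f '' E) 1 C' δ := by
  classical
  have hC : 0 ≤ C := by
    have h := hE 0 1 one_pos le_rfl ∅ (by simp) (by simp)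
    simpa using h
  obtain ⟨Z, hZE, hZn, hZc⟩ := exists_net hE
  obtain ⟨c, hc0, hc⟩ := exists_mass (V := V) hs hC
  set ε : ℝ := (1 - s) / 2 with hε
  have hε0 : 0 < ε := by rw [hε]; linarith
  set β : ℝ := min (1 / 2) (δ * ε / (s + 1)) with hβ
  have hβ0 : 0 < β := lt_min (by norm_num) (by positivity)
  have hβ1 : β ≤ 1 / 2 := min_le_left _ _
  have hsβ : s * β ≤ δ * ε := by
    have h1 : β ≤ δ * ε / (s + 1) := min_le_right _ _
    rw [le_div_iff₀ (by linarith)] at h1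
    nlinarith
  set α : ℝ := 1 - β with hα
  have hα0 : 0 < α := by rw [hα]; linarith
  have hα1 : α < 1 := by rw [hα]; linarith
  have h1α : 1 - α = β := by rw [hα]; ring
  let m : Idx Z → ℝ := fun i => c * (2 : ℝ) ^ (-((1 - ε) * i.1.1))
  let z : Idx Z → V := fun i => i.1.2
  have hm : ∀ i, 0 < m i := fun i => by
    show 0 < c * (2 : ℝ) ^ (-((1 - ε) * i.1.1))
    positivity
  have hz : LocMass m z 4 (1 / 8) := hc Z hZc
  obtain ⟨y, hyz, hy⟩ := inf_system hα0 hα1 hm hz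
  have hyM : LocMass m y 3 (1 / 8) := locMass_of_near hz hyz
  obtain ⟨Φ, hΦ⟩ := exists_homeo hα0 hα1 hm hyM
  have hmove : ∀ x, ‖Φ x - x‖ ≤ 1 / 8 := fun x => by
    rw [hΦ]
    exact norm_fm_sub_le hα0 hα1 hm hyM x
  have hfmove : ∀ w, ‖Φ.symm w - w‖ ≤ 1 / 8 := fun w => by
    have := hmove (Φ.symm w)
    rwa [Homeomorph.apply_symm_apply, norm_sub_rev] at this
  have hΦy : ∀ i, Φ (y i) = z i := fun i => by rw [hΦ, hy]
  -- the constants
  set A : ℝ := ε / β with hA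
  have hA0 : 0 < A := by positivity
  have hsA : s / A ≤ δ := by
    rw [hA, div_div_eq_mul_div, div_le_iff₀ hε0]
    exact hsβ
  set C2 : ℝ := (2 / (β * c)) ^ (1 / β) with hC2
  have hC20 : 0 < C2 := by positivity
  obtain ⟨k0, hk0⟩ : ∃ k0 : ℕ, (1 / 2 : ℝ) ^ k0 < β / 2 :=
    exists_pow_lt_of_lt_one (by positivity) (by norm_num)
  -- the main estimate
  have main : ∀ e ∈ E, ∀ k : ℕ, k0 ≤ k → ∀ i : Idx Z, i.1.1 = k → ‖z i - e‖ ≤ (1 / 2 : ℝ) ^ k →
      ‖Φ.symm e - y i‖ ≤ C2 * (2 : ℝ) ^ (-(A * k)) := by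
    intro e he k hk i hik hie
    set u : V := Φ.symm e - y i with hu
    have hx : y i + u = Φ.symm e := by rw [hu]; abel
    have hdist : ‖fm α m y (y i + u) - fm α m y (y i)‖ ≤ (1 / 2 : ℝ) ^ k := by
      rw [hx, ← hΦ, ← hΦ, Homeomorph.apply_symm_apply, hΦy, norm_sub_rev]
      exact hie
    rcases eq_or_ne u 0 with h0 | h0
    · rw [h0, norm_zero]
      positivity
    have hupos : 0 < ‖u‖ := norm_pos_iff.2 h0
    have h1 := fm_lower hα0 hα1 hm hyM (y i) u h0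
    have h2 := le_TT hα0 hα1 hm hyM (y i) hupos
    rw [h1α] at h1
    have h3 : ‖u‖ ≤ 1 := by
      have h4 : β / 2 * ‖u‖ ≤ (1 / 2 : ℝ) ^ k :=
        (mul_le_mul_of_nonneg_left h2 (by positivity)).trans (h1.trans hdist)
      have h5 : (1 / 2 : ℝ) ^ k ≤ (1 / 2 : ℝ) ^ k0 :=
        pow_le_pow_of_le_one (by norm_num) (by norm_num) hk
      have h6 : β / 2 * ‖u‖ ≤ β / 2 * 1 := by linarith
      exact le_of_mul_le_mul_left h6 (by positivity)
    have h7 := fm_center hα0 hα1 hm hyM i (y i + u) (by simpa using h3)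
    rw [add_sub_cancel_left, h1α] at h7
    have h8 : β / 2 * (m i * ‖u‖ ^ β) ≤ (1 / 2 : ℝ) ^ k := h7.trans hdist
    have hmi : m i = c * (2 : ℝ) ^ (-((1 - ε) * k)) := by
      show c * (2 : ℝ) ^ (-((1 - ε) * i.1.1)) = _
      rw [hik]
    have hhalf : (1 / 2 : ℝ) ^ k = (2 : ℝ) ^ (-(k : ℝ)) := by
      rw [one_div, inv_pow, ← Real.rpow_natCast, Real.rpow_neg (by norm_num)]
    have h9 : ‖u‖ ^ β ≤ 2 / (β * c) * (2 : ℝ) ^ (-(ε * k)) := by
      rw [hmi, hhalf] at h8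
      have h10 : (2 : ℝ) ^ (-(k : ℝ)) = (2 : ℝ) ^ (-((1 - ε) * k)) * (2 : ℝ) ^ (-(ε * k)) := by
        rw [← Real.rpow_add (by norm_num)]
        congr 1
        ring
      rw [h10] at h8
      have hp : 0 < (2 : ℝ) ^ (-((1 - ε) * k)) := by positivity
      have h11 : (2 : ℝ) ^ (-((1 - ε) * k)) * (β * c / 2 * ‖u‖ ^ β)
          ≤ (2 : ℝ) ^ (-((1 - ε) * k)) * (2 : ℝ) ^ (-(ε * k)) := by
        calc (2 : ℝ) ^ (-((1 - ε) * k)) * (β * c / 2 * ‖u‖ ^ β)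
            = β / 2 * (c * (2 : ℝ) ^ (-((1 - ε) * k)) * ‖u‖ ^ β) := by ring
          _ ≤ _ := h8
      have h12 := le_of_mul_le_mul_left h11 hp
      calc ‖u‖ ^ β = 2 / (β * c) * (β * c / 2 * ‖u‖ ^ β) := by field_simp
        _ ≤ 2 / (β * c) * (2 : ℝ) ^ (-(ε * k)) := mul_le_mul_of_nonneg_left h12 (by positivity)
    have h13 := Real.rpow_le_rpow (by positivity) h9 (by positivity : 0 ≤ 1 / β)
    rw [← Real.rpow_mul hupos.le, mul_one_div_cancel hβ0.ne', Real.rpow_one,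
      Real.mul_rpow (by positivity) (by positivity), ← Real.rpow_mul (by norm_num)] at h13
    have h14 : -(ε * (k:ℝ)) * (1 / β) = -(A * k) := by rw [hA]; ring
    rw [h14] at h13
    exact h13
  obtain ⟨B, hB0, hB⟩ := shr_scale hA0 hs0 hsA hC20 k0
  refine ⟨Φ.symm, isQC_symm hα0 hα1 hm hyM hΦ, fun w => (hfmove w).trans (by norm_num),
    C * B, ?_⟩
  intro x0 r hr0 hr1 F hF hFs
  obtain ⟨k, hk, hk1, hk2⟩ := hB r hr0 hr1
  -- for every point of F choose a point of E and a net point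
  have hex : ∀ a : F, ∃ zz : V, zz ∈ Z k ∧ ‖(a : V) - x0‖ ≤ 1 ∧ ‖zz - x0‖ ≤ 5 ∧
      ∃ i : Idx Z, i.1 = (k, zz) ∧ ‖(a : V) - y i‖ ≤ C2 * (2 : ℝ) ^ (-(A * k)) := by
    intro a
    obtain ⟨⟨e, he, hea⟩, ha1⟩ := hF a a.2
    obtain ⟨zz, hzz, hze⟩ := hZn k e he
    refine ⟨zz, hzz, ha1, ?_, ⟨(k, zz), hzz⟩, rfl, ?_⟩
    · have h1 := hfmove e
      rw [hea] at h1
      have h2 : (1 / 2 : ℝ) ^ k ≤ 1 := pow_le_one₀ (by norm_num) (by norm_num)
      have h3 : zz - x0 = (zz - e) + -((a : V) - e) + ((a : V) - x0) := by abel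
      calc ‖zz - x0‖ ≤ ‖zz - e‖ + ‖-((a : V) - e)‖ + ‖(a : V) - x0‖ := by
            rw [h3]
            exact norm_add₃_le
        _ ≤ 5 := by rw [norm_neg]; linarith
    · rw [← hea]
      exact main e he k hk ⟨(k, zz), hzz⟩ rfl hze
  choose g hg1 hg2 hg3 ii hii1 hii2 using hex
  have hginj : Function.Injective g := by
    intro a b hab
    by_contra hne
    have h1 : ii a = ii b := Subtype.ext (by rw [hii1, hii1, hab])
    have h2 := hii2 a
    have h3 := hii2 b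
    rw [← h1] at h3
    have h4 := hFs a a.2 b b.2 (fun h => hne (Subtype.ext h))
    have h5 : ‖(a : V) - b‖ ≤ ‖(a : V) - y (ii a)‖ + ‖(b : V) - y (ii a)‖ := by
      have : (a : V) - b = ((a : V) - y (ii a)) - ((b : V) - y (ii a)) := by abel
      rw [this]
      exact norm_sub_le _ _
    linarith
  let T : Finset V := (Finset.univ : Finset F).image g
  have hTc : T.card = F.card := by
    rw [Finset.card_image_of_injective _ hginj, Finset.card_univ, Fintype.card_coe]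
  have h6 := hZc k x0 T (fun a ha => by
    obtain ⟨b, _, rfl⟩ := Finset.mem_image.1 ha
    exact ⟨hg1 b, hg3 b⟩)
  rw [hTc] at h6
  calc (F.card : ℝ) ≤ C * (2 : ℝ) ^ (s * k) := h6
    _ ≤ C * (B * r ^ (-δ)) := mul_le_mul_of_nonneg_left hk2 hC
    _ = C * B * r ^ (-δ) := by ring

end QCA
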